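import Pool.Agent.Lib.H56.Gen.Level

/-!
# The Poincaré inequality in any cusp of the principal congruence subgroup of level `n`

`K` is a lattice of translations with `g₀ K g₀⁻¹` in `Gam q` and `g₀ (1 + n K) g₀⁻¹` in the principal
congruence subgroup of level `n`.
-/

namespace Pool.Agent.Lib.H43T

open Matrix hiding J
open MeasureTheory Topology Filter
open Pool.Agent.Lib.H56.Picard hiding O Gam mem_Gam star_mem_O T_mem sg_mem
open Pool.Agent.Lib.H56.Gen
open scoped ENNReal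

noncomputable section

variable {q : QD}

/-! ### Multiples of a lattice of translations -/

/-- The multiple of cusp data. -/
def scaleK (K : Cusp q) (n : ℕ) (hn : n ≠ 0) : Cusp q where
  p := (n : ℂ) * K.p
  e1 := n * K.e1
  e2 := n * K.e2
  w1 := n ^ 2 * K.w1
  w2 := n ^ 2 * K.w2
  P := n * K.P
  hp := (OO q).mul_mem (natCast_mem (OO q) n) K.hp
  hp0 := mul_ne_zero (Nat.cast_ne_zero.2 hn) K.hp0
  he1 := by
    obtain ⟨x, hx, e⟩ := K.he1
    refine ⟨x, hx, ?_⟩
    rw [e, mul_assoc]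
  he2 := by
    obtain ⟨x, hx, e⟩ := K.he2
    refine ⟨x, hx, ?_⟩
    rw [e, mul_assoc]
  hs1 := by
    obtain ⟨x, hx, e⟩ := K.hs1
    refine ⟨x, hx, ?_⟩
    rw [star_mul', e, mul_assoc]
    congr 1
    simp
  hs2 := by
    obtain ⟨x, hx, e⟩ := K.hs2
    refine ⟨x, hx, ?_⟩
    rw [star_mul', e, mul_assoc]
    congr 1
    simp
  hw1 := by
    obtain ⟨x, hx, e⟩ := K.hw1
    refine ⟨(n : ℂ) * x, (OO q).mul_mem (natCast_mem (OO q) n) hx, ?_⟩
    rw [e]
    ring
  hw2 := by
    obtain ⟨x, hx, e⟩ := K.hw2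
    refine ⟨(n : ℂ) * x, (OO q).mul_mem (natCast_mem (OO q) n) hx, ?_⟩
    rw [e]
    ring
  hw0 := by
    obtain ⟨x, hx, e⟩ := K.hw0
    refine ⟨x, hx, ?_⟩
    rw [mul_assoc, ← e]
    apply Complex.ext
    · simp
    · simp
      ring
  r1 := by
    have h := K.r1
    have e1 : ((n : ℂ) ^ 2 * K.w1).re = (n : ℝ) ^ 2 * K.w1.re := by
      have : ((n : ℂ) ^ 2 * K.w1) = (((n : ℝ) ^ 2 : ℝ) : ℂ) * K.w1 := by push_cast; rfl
      rw [this, Complex.re_ofReal_mul]
    have e2 : Complex.normSq ((n : ℂ) * K.e1) = (n : ℝ) ^ 2 * Complex.normSq K.e1 := by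
      rw [Complex.normSq_mul, Complex.normSq_natCast]
      ring
    rw [e1, e2]
    linear_combination (n : ℝ) ^ 2 * h
  r2 := by
    have h := K.r2
    have e1 : ((n : ℂ) ^ 2 * K.w2).re = (n : ℝ) ^ 2 * K.w2.re := by
      have : ((n : ℂ) ^ 2 * K.w2) = (((n : ℝ) ^ 2 : ℝ) : ℂ) * K.w2 := by push_cast; rfl
      rw [this, Complex.re_ofReal_mul]
    have e2 : Complex.normSq ((n : ℂ) * K.e2) = (n : ℝ) ^ 2 * Complex.normSq K.e2 := by
      rw [Complex.normSq_mul, Complex.normSq_natCast]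
      ring
    rw [e1, e2]
    linear_combination (n : ℝ) ^ 2 * h
  hP := by
    have := K.hP
    have hn' : (0 : ℝ) < n := Nat.cast_pos.2 (Nat.pos_of_ne_zero hn)
    positivity
  cov := by
    have h := K.cov
    have hn' : (0 : ℝ) < n := Nat.cast_pos.2 (Nat.pos_of_ne_zero hn)
    have e : ((n : ℂ) * K.e1).re * ((n : ℂ) * K.e2).im - ((n : ℂ) * K.e1).im * ((n : ℂ) * K.e2).re =
        (n : ℝ) ^ 2 * (K.e1.re * K.e2.im - K.e1.im * K.e2.re) := by
      simp
      ring
    rw [e]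
    positivity
  cen := by
    intro x hx h
    have hn' : (n : ℝ) ≠ 0 := Nat.cast_ne_zero.2 hn
    have e1 : ((n : ℂ) * K.p * x).re = n * (K.p * x).re := by
      rw [mul_assoc]
      simp
    have e2 : ((n : ℂ) * K.p * x).im = n * (K.p * x).im := by
      rw [mul_assoc]
      simp
    rw [e1] at h
    obtain ⟨k, hk⟩ := K.cen x hx ((mul_eq_zero.1 h).resolve_left hn')
    refine ⟨k, ?_⟩
    rw [e2, hk]
    ring

lemma scaleK_cv (K : Cusp q) (n : ℕ) (hn : n ≠ 0) :
    (scaleK K n hn).cv = (n : ℝ) ^ 2 * K.cv := by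
  simp only [Cusp.cv, scaleK]
  simp
  ring

lemma scaleK_A (K : Cusp q) (n : ℕ) (hn : n ≠ 0) :
    (scaleK K n hn).A1 = K.A1 / n ^ 2 ∧ (scaleK K n hn).A2 = K.A2 / n ^ 2 ∧
      (scaleK K n hn).A3 = K.A3 / n ^ 2 := by
  have hn' : (n : ℝ) ≠ 0 := Nat.cast_ne_zero.2 hn
  have hc := K.cv_pos.ne'
  have e0 := scaleK_cv K n hn
  refine ⟨?_, ?_, ?_⟩
  · simp only [Cusp.A1, e0]
    have e2 : Complex.normSq (scaleK K n hn).e2 = (n : ℝ) ^ 2 * Complex.normSq K.e2 := by
      simp only [scaleK]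
      rw [Complex.normSq_mul, Complex.normSq_natCast]
      ring
    rw [e2]
    field_simp
  · simp only [Cusp.A2, e0]
    have e2 : (scaleK K n hn).e1.re * (scaleK K n hn).e2.re +
        (scaleK K n hn).e1.im * (scaleK K n hn).e2.im =
        (n : ℝ) ^ 2 * (K.e1.re * K.e2.re + K.e1.im * K.e2.im) := by
      simp only [scaleK]
      simp
      ring
    rw [e2]
    field_simp
  · simp only [Cusp.A3, e0]
    have e2 : Complex.normSq (scaleK K n hn).e1 = (n : ℝ) ^ 2 * Complex.normSq K.e1 := by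
      simp only [scaleK]
      rw [Complex.normSq_mul, Complex.normSq_natCast]
      ring
    rw [e2]
    field_simp

lemma scaleK_lv (K : Cusp q) (n : ℕ) (hn : n ≠ 0) (a b : ℤ) :
    (scaleK K n hn).lv a b = K.lv (n * a) (n * b) := by
  simp only [Cusp.lv, scaleK]
  push_cast
  ring

lemma scaleK_B_le (K : Cusp q) (n : ℕ) (hn : n ≠ 0) : (scaleK K n hn).B ≤ K.B := by
  rintro γ ⟨a, b, w, hw, hr, hm⟩
  refine ⟨n * a, n * b, w, ?_, ?_, ?_⟩
  · obtain ⟨x, hx, e⟩ := hw
    refine ⟨(n : ℂ) * x, (OO q).mul_mem (natCast_mem (OO q) n) hx, ?_⟩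
    rw [e]
    show (n : ℂ) * K.p * x = _
    ring
  · rw [← scaleK_lv K n hn]
    exact hr
  · rw [← scaleK_lv K n hn]
    exact hm

/-- The quadratic form of the cusp is bounded below on nonzero integer vectors. -/
lemma exists_kk (K : Cusp q) : ∃ k0 : ℝ, 0 < k0 ∧ ∀ i j : ℤ, (i ≠ 0 ∨ j ≠ 0) →
    k0 ≤ K.A1 * i ^ 2 + K.A2 * i * j + K.A3 * j ^ 2 := by
  have hc := K.cv_pos
  have hdet : 4 * K.A1 * K.A3 - K.A2 ^ 2 = 1 / (4 * K.cv ^ 2) := by
    have h4 : K.cv ^ 2 = (K.e1.re * K.e2.im - K.e1.im * K.e2.re) ^ 2 := rfl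
    have h5 : K.cv ^ 4 = (K.e1.re * K.e2.im - K.e1.im * K.e2.re) ^ 4 := rfl
    simp only [Cusp.A1, Cusp.A2, Cusp.A3, Complex.normSq_apply]
    field_simp
    rw [h4]
    ring
  have hd0 : 0 < 1 / (4 * K.cv ^ 2) := by positivity
  set d := 1 / (4 * K.cv ^ 2) with hd
  have hn1 : 0 < Complex.normSq K.e1 := by
    rw [Complex.normSq_pos]
    intro he
    have := K.cov
    rw [he] at this
    simp at this
  have hn2 : 0 < Complex.normSq K.e2 := by
    rw [Complex.normSq_pos]
    intro he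
    have := K.cov
    rw [he] at this
    simp at this
  have hA1 : 0 < K.A1 := by
    unfold Cusp.A1
    positivity
  have hA3 : 0 < K.A3 := by
    unfold Cusp.A3
    positivity
  refine ⟨min (d / (4 * K.A3)) (d / (4 * K.A1)), lt_min (by positivity) (by positivity), ?_⟩
  have one_le : ∀ k : ℤ, k ≠ 0 → (1 : ℝ) ≤ (k : ℝ) ^ 2 := by
    intro k hk
    have h1 : (1 : ℤ) ≤ k ^ 2 := by
      have := sq_pos_of_ne_zero hk
      linarith
    exact_mod_cast h1
  intro i j hij
  rcases hij with hi | hj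
  · refine (min_le_left _ _).trans ?_
    rw [div_le_iff₀ (by positivity)]
    have h1 := one_le i hi
    nlinarith [sq_nonneg (2 * K.A3 * j + K.A2 * i)]
  · refine (min_le_right _ _).trans ?_
    rw [div_le_iff₀ (by positivity)]
    have h1 := one_le j hj
    nlinarith [sq_nonneg (2 * K.A1 * i + K.A2 * j)]

/-! ### Unfolding of a larger box -/

/-- number of translates of `y` by the subgroup `H` in the box -/
def repH (H : Subgroup (Gam q)) (Box : Set (ℂ × ℂ)) (y : X) : ℝ≥0∞ :=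
  ∑' a : H, bx Box (a • y : X).1

lemma repH_const {H B : Subgroup (Gam q)} {Box : Set (ℂ × ℂ)} (hBA : B ≤ H)
    (hB : ∀ z ∈ U, ∃! b : B, act (mat b.1.1) z ∈ Box) (y y1 : X) :
    repH H Box y = repH H Box y1 := by
  have h1 : repH H Box y = ∑' a : H, ∑' b : B,
      bx Box (a • y : X).1 * bx Box (b • (a • y1) : X).1 := by
    refine tsum_congr fun a => ?_
    rw [ENNReal.tsum_mul_left, sum_bx hB, mul_one]
  have h2 : repH H Box y1 = ∑' a : H, ∑' b : B,
      bx Box (b⁻¹ • (a • y) : X).1 * bx Box (a • y1 : X).1 := by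
    refine tsum_congr fun a => ?_
    rw [ENNReal.tsum_mul_right, sum_bx_inv hB, one_mul]
  rw [h1, h2, ENNReal.tsum_comm, ENNReal.tsum_comm (α := H)]
  refine tsum_congr fun b => ?_
  set b' : H := ⟨b.1, hBA b.2⟩ with hb'
  rw [← (Equiv.mulLeft b').tsum_eq (fun a : H =>
    bx Box (b⁻¹ • (a • y) : X).1 * bx Box (a • y1 : X).1)]
  refine tsum_congr fun a => ?_
  have e1 : (b⁻¹ • ((Equiv.mulLeft b') a • y) : X) = a • y := by
    have : (b⁻¹ • ((Equiv.mulLeft b') a • y) : X) = b.1⁻¹ • ((b.1 * a.1) • y) := rfl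
    rw [this, smul_smul, inv_mul_cancel_left]
    rfl
  have e2 : ((Equiv.mulLeft b') a • y1 : X) = b • (a • y1) := by
    have : ((Equiv.mulLeft b') a • y1 : X) = (b.1 * a.1) • y1 := rfl
    rw [this, mul_smul]
    rfl
  rw [e1, e2]

lemma one_le_repH {H B : Subgroup (Gam q)} {Box : Set (ℂ × ℂ)} (hBA : B ≤ H)
    (hB : ∀ z ∈ U, ∃! b : B, act (mat b.1.1) z ∈ Box) (y : X) : 1 ≤ repH H Box y := by
  obtain ⟨b, hb, -⟩ := hB y.1 y.2
  refine le_trans ?_ (ENNReal.le_tsum (⟨b.1, hBA b.2⟩ : H))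
  exact (if_pos hb).ge

lemma repH_ne_top {H : Subgroup (Gam q)} (K : Cusp q) (hH : H ≤ stab (OO q) star_mem) (y : X) :
    repH H K.Box y ≠ ⊤ := by
  classical
  obtain ⟨S0, hK, hKU, hKc⟩ := Box_compact K (height y.1) (height y.1) y.2
  obtain ⟨S, hS⟩ := Pool.Agent.Lib.H56.Picard.locally_finite (hO := star_mem (q := q))
    Pool.Agent.Lib.H56.Gen.finite_ball hK hKU (z := y.1) y.2
  have hS' := hS.self_of_nhds.2
  refine tsum_ne_top_of_finite (S.subtype (fun a => a ∈ H)) (fun a ha => ?_)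
    fun a => bx_ne_top _ _
  refine if_neg fun hmem => ?_
  have hh : height (act (mat a.1.1) y.1) = height y.1 :=
    height_stab one_le_norm (⟨a.1, hH a.2⟩ : stab (OO q) star_mem) y
  have h1 : act (mat a.1.1) y.1 ∈ S0 := hKc _ hmem hh.ge hh.le
  have h2 : a.1 ∉ S := fun h => ha (Finset.mem_subtype.2 h)
  exact hS' a.1 h2 h1

/-- Integral over the part of the larger box above height `A` of a function invariant under the
translations. -/
lemma bigbox (K : Cusp q) (n : ℕ) (hn : n ≠ 0) (y0 : X) {A : ℝ} {Ψ : X → ℝ≥0∞}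
    (mΨ : Measurable Ψ) (hΨ : ∀ (b : K.B) (z : X), Ψ (b • z) = Ψ z) :
    ∫⁻ z in {z : X | z.1 ∈ (scaleK K n hn).Box}, above A (height z.1) * Ψ z ∂mu =
      repH K.B (scaleK K n hn).Box y0 *
        ∫⁻ z in {z : X | z.1 ∈ K.Box}, above A (height z.1) * Ψ z ∂mu := by
  have hcount : Countable (Gam q) := countable_arith Pool.Agent.Lib.H56.Gen.finite_ball
  have hcB : Countable K.B := inferInstance
  set K' := scaleK K n hn with hK'
  have mA := measurable_above A
  have mb' := measurable_bx (measurableSet_Box K')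
  have mb := measurable_bx (measurableSet_Box K)
  have mF : Measurable fun z : X => bx K'.Box z.1 * (above A (height z.1) * Ψ z) :=
    mb'.mul ((mA.comp measurable_height).mul mΨ)
  have hind : ∀ (K : Cusp q), ∫⁻ z in {z : X | z.1 ∈ K.Box}, above A (height z.1) * Ψ z ∂mu =
      ∫⁻ z, bx K.Box z.1 * (above A (height z.1) * Ψ z) ∂mu := by
    intro K
    have hs : MeasurableSet {z : X | z.1 ∈ K.Box} :=
      (measurableSet_Box K).preimage measurable_subtype_coe
    rw [← lintegral_indicator hs]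
    refine lintegral_congr fun z => ?_
    by_cases hz : z ∈ {z : X | z.1 ∈ K.Box}
    · rw [Set.indicator_of_mem hz]
      have : bx K.Box z.1 = 1 := if_pos hz
      rw [this, one_mul]
    · rw [Set.indicator_of_notMem hz]
      have : bx K.Box z.1 = 0 := if_neg hz
      rw [this, zero_mul]
  have h2 := unfold_lintegral (G := K.B) (w := fun z : X => bx K.Box z.1) mb (c := 1)
    (Filter.Eventually.of_forall (fun z => sum_bx (fun z hz => K.exists_unique_B hz) z)) mF
  rw [one_mul] at h2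
  rw [hind K', hind K, h2]
  have hstab : K.B ≤ stab (OO q) star_mem := B_le_stab K
  have h3 : ∀ z : X, ∑' γ : K.B, bx K'.Box (γ • z : X).1 * (above A (height (γ • z : X).1) *
      Ψ (γ • z)) = repH K.B K'.Box y0 * (above A (height z.1) * Ψ z) := by
    intro z
    rw [repH_const (scaleK_B_le K n hn) (fun z hz => K'.exists_unique_B hz) y0 z]
    unfold repH
    rw [← ENNReal.tsum_mul_right]
    refine tsum_congr fun b => ?_
    have e1 : height (b • z : X).1 = height z.1 :=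
      height_stab one_le_norm (⟨b.1, hstab b.2⟩ : stab (OO q) star_mem) z
    rw [hΨ, e1]
  simp only [h3]
  have h4 : ∀ z : X, bx K.Box z.1 * (repH K.B K'.Box y0 * (above A (height z.1) * Ψ z)) =
      repH K.B K'.Box y0 * (bx K.Box z.1 * (above A (height z.1) * Ψ z)) := fun z => by ring
  simp only [h4]
  have mT : Measurable fun z : X => bx K.Box z.1 * (above A (height z.1) * Ψ z) :=
    mb.mul ((mA.comp measurable_height).mul mΨ)
  exact lintegral_const_mul _ mT

/-! ### The functions in the coordinates of the cusp `g₀ ∞` -/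

/-- `A ↦ g₀ A g₀⁻¹` maps matrices over `K.p OO q` to matrices over `OO q`. -/
def Lev (K : Cusp q) (g₀ : SU21) : Prop :=
  ∀ A : Matrix (Fin 3) (Fin 3) ℂ, (∀ k l, ∃ x ∈ OO q, A k l = K.p * x) →
    ∀ k l, (mat g₀ * A * mat g₀⁻¹) k l ∈ OO q

/-- Conjugates of translations of level `n K.p` are in the principal congruence subgroup of level `n`. -/
lemma conj_mem {K : Cusp q} {g₀ : SU21} (lev : Lev K g₀) (n : ℕ) {b : SU21}
    (hb : ∀ k l, ∃ x ∈ OO q, mat b k l - (1 : Matrix (Fin 3) (Fin 3) ℂ) k l = (n : ℂ) * K.p * x) :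
    ∃ h : g₀ * b * g₀⁻¹ ∈ Gam q, (⟨g₀ * b * g₀⁻¹, h⟩ : Gam q) ∈ GamN q (n : ℂ) := by
  choose x hx hxe using hb
  set A : Matrix (Fin 3) (Fin 3) ℂ := Matrix.of fun k l => K.p * x k l with hA
  have e1 : mat b = 1 + (n : ℂ) • A := by
    ext k l
    rw [Matrix.add_apply, Matrix.smul_apply, smul_eq_mul, hA, Matrix.of_apply]
    linear_combination hxe k l
  have e2 : mat g₀ * mat g₀⁻¹ = 1 := by rw [← mat_mul, mul_inv_cancel, mat_one]
  have e3 : mat (g₀ * b * g₀⁻¹) = 1 + (n : ℂ) • (mat g₀ * A * mat g₀⁻¹) := by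
    rw [mat_mul, mat_mul, e1, Matrix.mul_add, Matrix.add_mul, Matrix.mul_one, e2, Matrix.mul_smul,
      Matrix.smul_mul]
  have e4 := lev A (fun k l => ⟨x k l, hx k l, rfl⟩)
  have h : g₀ * b * g₀⁻¹ ∈ Gam q := by
    intro k l
    rw [e3, Matrix.add_apply, Matrix.smul_apply, smul_eq_mul]
    refine (OO q).add_mem ?_ ((OO q).mul_mem (natCast_mem _ n) (e4 k l))
    rw [Matrix.one_apply]
    split_ifs
    · exact (OO q).one_mem
    · exact (OO q).zero_mem
  refine ⟨h, ?_⟩
  rw [mem_GamN]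
  intro k l
  refine ⟨_, e4 k l, ?_⟩
  show mat (g₀ * b * g₀⁻¹) k l - _ = _
  rw [e3, Matrix.add_apply, Matrix.smul_apply, smul_eq_mul]
  ring

/-- A translation, as an element congruent to one. -/
lemma T_congr {p l w : ℂ} (h : 2 * w.re = -Complex.normSq l)
    (hl : l ∈ PO q p) (hsl : star l ∈ PO q p) (hw : w ∈ PO q p) (k j : Fin 3) :
    ∃ x ∈ OO q, mat (T l w h) k j - (1 : Matrix (Fin 3) (Fin 3) ℂ) k j = p * x := by
  have h0 := (PO q p).zero_mem
  have h1 := (PO q p).neg_mem hsl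
  simp only [Complex.star_def] at h1
  have key : mat (T l w h) k j - (1 : Matrix (Fin 3) (Fin 3) ℂ) k j ∈ PO q p := by
    rw [mat_T]
    fin_cases k <;> fin_cases j <;> simp [TM, h0, h1, hl, hw]
  exact key

/-- The conjugate functions in the coordinates of the cusp. -/
def cj (g₀ : SU21) (G : Subgroup (Gam q)) (f : ℂ × ℂ → ℂ) (x : Gam q ⧸ G) (w : ℂ × ℂ) : ℂ :=
  conj G f x (act (mat g₀) w)

lemma contDiffOn_cj {G : Subgroup (Gam q)} {f : ℂ × ℂ → ℂ} (hf : ContDiffOn ℝ 2 f U) (g₀ : SU21)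
    (x : Gam q ⧸ G) : ContDiffOn ℝ 2 (cj g₀ G f x) U := by
  intro z hz
  apply ContDiffAt.contDiffWithinAt
  exact ((contDiffOn_conj2 hf x).contDiffAt (isOpen_U.mem_nhds (act_mem_U _ hz))).comp z
    (contDiffAt_act2 _ hz)

lemma cj_inv {K : Cusp q} {g₀ : SU21} (lev : Lev K g₀) {n : ℕ} {f : ℂ × ℂ → ℂ}
    (hinv : ∀ γ : Gam q, γ ∈ GamN q (n : ℂ) → ∀ z ∈ U, f (act (mat γ.1) z) = f z)
    (x : Gam q ⧸ GamN q (n : ℂ)) {b : SU21}
    (hb : ∀ k l, ∃ x ∈ OO q, mat b k l - (1 : Matrix (Fin 3) (Fin 3) ℂ) k l = (n : ℂ) * K.p * x)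
    {w : ℂ × ℂ} (hw : w ∈ U) :
    cj g₀ (GamN q (n : ℂ)) f x (act (mat b) w) = cj g₀ (GamN q (n : ℂ)) f x w := by
  obtain ⟨h, hm⟩ := conj_mem lev n hb
  have h1 := conj_inv hinv x hm (act_mem_U g₀ hw)
  have e : act (mat (⟨g₀ * b * g₀⁻¹, h⟩ : Gam q).1) (act (mat g₀) w) =
      act (mat g₀) (act (mat b) w) := by
    show act (mat (g₀ * b * g₀⁻¹)) (act (mat g₀) w) = _
    rw [act_act _ _ hw, act_act _ _ hw]
    congr 2
    group
  rw [e] at h1
  exact h1

lemma cuspFun_cj {K : Cusp q} {g₀ : SU21} (lev : Lev K g₀) {n : ℕ} (hn : n ≠ 0)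
    {f : ℂ × ℂ → ℂ} (hf : ContDiffOn ℝ 2 f U)
    (hinv : ∀ γ : Gam q, γ ∈ GamN q (n : ℂ) → ∀ z ∈ U, f (act (mat γ.1) z) = f z)
    (x : Gam q ⧸ GamN q (n : ℂ)) (R : ℂ →L[ℝ] ℝ) :
    CuspFun (scaleK K n hn) (fun z => R (cj g₀ (GamN q (n : ℂ)) f x z)) := by
  set K' := scaleK K n hn with hK'
  have hr0 : 2 * (⟨0, K'.P / 2⟩ : ℂ).re = -Complex.normSq 0 := by simp
  refine ⟨R.contDiff.comp_contDiffOn (contDiffOn_cj hf g₀ x), fun z hz => ?_, fun z hz => ?_,
    fun z hz => ?_⟩
  · have h1 := cj_inv lev hinv x (b := T 0 ⟨0, K'.P / 2⟩ hr0)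
      (T_congr hr0 (PO q K'.p).zero_mem (by rw [star_zero]; exact (PO q K'.p).zero_mem) K'.hw0)
      (w := z) hz
    rw [mat_T, act_TM] at h1
    have h2 : (z.1 - star (0 : ℂ) * z.2 + ⟨0, K'.P / 2⟩, z.2 + 0) = (z.1 + ⟨0, K'.P / 2⟩, z.2) := by
      simp
    rw [h2] at h1
    exact congrArg R h1
  · have h1 := cj_inv lev hinv x (b := T K'.e1 K'.w1 K'.r1)
      (T_congr K'.r1 K'.he1 K'.hs1 K'.hw1) (w := z) hz
    rw [mat_T, act_TM] at h1
    exact congrArg R h1
  · have h1 := cj_inv lev hinv x (b := T K'.e2 K'.w2 K'.r2)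
      (T_congr K'.r2 K'.he2 K'.hs2 K'.hw2) (w := z) hz
    rw [mat_T, act_TM] at h1
    exact congrArg R h1

/-- **The Poincaré inequality in the cusp `g₀ ∞`.** `f` is invariant under the principal congruence
subgroup of level `n` and has vanishing constant terms at the cusps `γ g₀ ∞`. -/
theorem box_ineq {K : Cusp q} {g₀ : SU21}
    (tr : ∀ b : Gam q, b ∈ K.B → g₀ * b.1 * g₀⁻¹ ∈ Gam q) (lev : Lev K g₀) {n : ℕ} (hn : n ≠ 0)
    {f : ℂ × ℂ → ℂ} (hf : ContDiffOn ℝ 2 f U)
    (hinv : ∀ γ : Gam q, γ ∈ GamN q (n : ℂ) → ∀ z ∈ U, f (act (mat γ.1) z) = f z)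
    (hcus : ∀ γ : Gam q, ∀ u : ℝ, 0 < u → ∫ s in (0:ℝ)..1, ∫ t in (0:ℝ)..1,
      ∫ v in (0:ℝ)..(n * K.P), f (act (mat (γ.1 * g₀)) (PsiE (n * K.e1) (n * K.e2) s t v u)) = 0)
    {A m k0 : ℝ} (hA : 1 ≤ A)
    (hm1 : m ≤ (2 * Real.pi / K.P) ^ 2) (hm : 0 ≤ m) (hk0 : 0 ≤ k0)
    (hk : ∀ i j : ℤ, (i ≠ 0 ∨ j ≠ 0) → k0 ≤ K.A1 * i ^ 2 + K.A2 * i * j + K.A3 * j ^ 2)
    (hm2 : m ≤ 4 * Real.pi ^ 2 * k0)
    (hfin : ∫⁻ w in {w : X | w.1 ∈ K.Box}, above A (height w.1) *
      PhiS (GamN q (n : ℂ)) f (g₀ • w) ∂mu ≠ ⊤) :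
    ENNReal.ofReal (m * A / n ^ 2) * ∫⁻ w in {w : X | w.1 ∈ K.Box}, above A (height w.1) *
      PhiS (GamN q (n : ℂ)) f (g₀ • w) ∂mu ≤
    ∫⁻ w in {w : X | w.1 ∈ K.Box}, above A (height w.1) *
      EnS (GamN q (n : ℂ)) f (g₀ • w) ∂mu := by
  have hA0 : 0 < A := by linarith
  have hn' : (0 : ℝ) < n := Nat.cast_pos.2 (Nat.pos_of_ne_zero hn)
  set G := GamN q (n : ℂ) with hG
  have hGfin := GamN_finiteIndex (q := q) (p := (n : ℂ)) (natCast_mem (OO q) n)
    (Nat.cast_ne_zero.2 hn)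
  have hfinq : Finite (Gam q ⧸ G) := Subgroup.finite_quotient_of_finiteIndex
  have hFt := Fintype.ofFinite (Gam q ⧸ G)
  set K' := scaleK K n hn with hK'
  have hB' : ∀ z ∈ U, ∃! b : K'.B, act (mat b.1.1) z ∈ K'.Box := fun z hz => K'.exists_unique_B hz
  set y0 : X := ⟨((-(1 / 2) : ℂ), (0 : ℂ)), by
    show 0 < height _
    simp [height]⟩ with hy0
  set R := repH K.B K'.Box y0 with hR
  have hR0 : R ≠ 0 := by
    have := one_le_repH (scaleK_B_le K n hn) hB' y0
    intro h0
    rw [← hR, h0] at this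
    exact absurd this (by simp)
  have hRt : R ≠ ⊤ := repH_ne_top K' (B_le_stab K) y0
  have mA := measurable_above A
  have msm : Measurable fun w : X => g₀ • w := measurable_const_smul g₀
  have mP : Measurable fun w : X => PhiS G f (g₀ • w) := (measurable_PhiS hf).comp msm
  have mE : Measurable fun w : X => EnS G f (g₀ • w) := (measurable_EnS hf).comp msm
  have htr : ∀ (b : K.B) (z : X), g₀ • (b • z : X) =
      ((⟨g₀ * b.1.1 * g₀⁻¹, tr b.1 b.2⟩ : Gam q) • (g₀ • z) : X) := by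
    intro b z
    have h1 : ((⟨g₀ * b.1.1 * g₀⁻¹, tr b.1 b.2⟩ : Gam q) • (g₀ • z) : X) =
        (g₀ * b.1.1 * g₀⁻¹) • (g₀ • z) := rfl
    rw [h1, smul_smul]
    have h2 : g₀ * b.1.1 * g₀⁻¹ * g₀ = g₀ * b.1.1 := by group
    rw [h2, mul_smul]
    rfl
  have uP := bigbox K n hn y0 (A := A) mP (fun b z => by
    rw [htr b z]
    exact PhiS_smul hinv _ _)
  have uE := bigbox K n hn y0 (A := A) mE (fun b z => by
    rw [htr b z]
    exact EnS_smul hf hinv _ _)
  -- finiteness over the big box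
  have hfinP : ∫⁻ z in {z : X | z.1 ∈ K'.Box}, above A (height z.1) *
      PhiS G f (g₀ • z) ∂mu ≠ ⊤ := by
    rw [uP]
    exact ENNReal.mul_ne_top hRt hfin
  have hPhi : ∀ w : X, PhiS G f (g₀ • w) =
      ∑' x : Gam q ⧸ G, ENNReal.ofReal (Complex.normSq (cj g₀ G f x w.1)) := fun w => rfl
  have mN : ∀ x : Gam q ⧸ G, Measurable fun z : X => Complex.normSq (cj g₀ G f x z.1) := fun x =>
    (continuous_restrict (φ := fun z => Complex.normSq (cj g₀ G f x z))
      (Complex.continuous_normSq.comp_continuousOn (contDiffOn_cj hf g₀ x).continuousOn)).measurable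
  have hfinC : ∀ x : Gam q ⧸ G, BW A K'.P (fun s t v u =>
      Complex.normSq (cj g₀ G f x (PsiE K'.e1 K'.e2 s t v u))) < ∞ := by
    intro x
    have e2 := lintegral_Box_weight K' hA0 (wE := above A) (w := fun _ => 1) mA
      (fun u _ => zero_le_one)
      (fun u hu => by
        unfold above
        rw [Set.indicator_of_mem (show u ∈ Set.Ioi A from hu), ENNReal.ofReal_one])
      (fun u hu => by
        unfold above
        exact Set.indicator_of_notMem (show u ∉ Set.Ioi A from not_lt.mpr hu) _)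
      (fun z => Complex.normSq (cj g₀ G f x z)) (mN x)
    have h3 : ∫⁻ z in {z : X | z.1 ∈ K'.Box}, above A (height z.1) *
        ENNReal.ofReal (Complex.normSq (cj g₀ G f x z.1)) ∂mu ≠ ⊤ := by
      refine ne_top_of_le_ne_top hfinP (lintegral_mono fun z => ?_)
      rw [hPhi]
      gcongr
      exact ENNReal.le_tsum (f := fun x : Gam q ⧸ G =>
        ENNReal.ofReal (Complex.normSq (cj g₀ G f x z.1))) x
    rw [e2] at h3
    simp only [one_mul] at h3
    by_contra hcon
    have h4 : BW A K'.P (fun s t v u =>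
      Complex.normSq (cj g₀ G f x (PsiE K'.e1 K'.e2 s t v u))) = ⊤ := by
      by_contra h5
      exact hcon (lt_top_iff_ne_top.2 h5)
    rw [h4, ENNReal.mul_top] at h3
    · exact h3 rfl
    · have := K'.cv_pos
      rw [ENNReal.ofReal_ne_zero_iff]
      positivity
  have hcF := fun (x : Gam q ⧸ G) (R : ℂ →L[ℝ] ℝ) => cuspFun_cj lev hn hf hinv x R
  have hcn : ∀ (x : Gam q ⧸ G) (R : ℂ →L[ℝ] ℝ),
      Measurable fun z : X => R (cj g₀ G f x z.1) ^ 2 := by
    intro x R
    have h1 := (hcF x R).smooth.continuousOn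
    exact ((continuous_restrict h1).pow 2).measurable
  have hce : ∀ (x : Gam q ⧸ G) (R : ℂ →L[ℝ] ℝ),
      Measurable fun z : X => energy (fun z => R (cj g₀ G f x z)) z.1 := by
    intro x R
    have h1 := (hcF x R).smooth.of_le (m := 1) (by norm_num)
    exact (continuous_restrict (φ := fun z => normL z
      (fderiv ℝ (fun z => R (cj g₀ G f x z)) z)) (continuousOn_normL h1)).measurable
  set M : ℝ := m * A / n ^ 2 with hM
  have hM0 : 0 ≤ M := by positivity
  set vE : ℝ → ℝ≥0∞ := fun u => ENNReal.ofReal M * above A u with hvE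
  have mvE : Measurable vE := measurable_const.mul mA
  have hab1 : ∀ u, A < u → above A u = 1 := fun u hu => by
    unfold above
    exact Set.indicator_of_mem (show u ∈ Set.Ioi A from hu) _
  have hab0 : ∀ u, u ≤ A → above A u = 0 := fun u hu => by
    unfold above
    exact Set.indicator_of_notMem (show u ∉ Set.Ioi A from not_lt.mpr hu) _
  obtain ⟨a1, a2, a3⟩ := scaleK_A K n hn
  -- the inequality for real and imaginary parts
  have hpart : ∀ (x : Gam q ⧸ G) (R : ℂ →L[ℝ] ℝ), (∀ c : ℂ, R c ^ 2 ≤ Complex.normSq c) →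
      ∫⁻ z in {z : X | z.1 ∈ K'.Box}, vE (height z.1) *
        ENNReal.ofReal (R (cj g₀ G f x z.1) ^ 2) ∂mu ≤
      ∫⁻ z in {z : X | z.1 ∈ K'.Box}, above A (height z.1) *
        ENNReal.ofReal (energy (fun z => R (cj g₀ G f x z)) z.1) ∂mu := by
    intro x R hR
    rw [lintegral_Box_weight K' hA0 (w := fun _ => M) mvE (fun _ _ => hM0)
        (fun u hu => by
          simp only [hvE]
          rw [hab1 u hu, mul_one])
        (fun u hu => by
          simp only [hvE]
          rw [hab0 u hu, mul_zero])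
        (fun z => R (cj g₀ G f x z) ^ 2) (hcn x R),
      lintegral_Box_weight K' hA0 (w := fun _ => 1) mA (fun _ _ => zero_le_one)
        (fun u hu => by rw [hab1 u hu, ENNReal.ofReal_one])
        (fun u hu => hab0 u hu)
        (fun z => energy (fun z => R (cj g₀ G f x z)) z) (hce x R)]
    refine mul_le_mul' le_rfl ?_
    refine cusp_real K' (h := A) (L := 0) (k0 := k0 / n ^ 2) (w := fun _ => 1) (V := fun _ => M)
      (B1 := fun _ => 0) (B2 := fun _ => 0) (B1' := fun _ => 0) (B2' := fun _ => 0) (M := 0)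
      hA0 (by positivity) ?_ le_rfl zero_le_one continuousOn_const (fun _ _ => one_pos)
      measurable_const
      (fun _ _ => hM0) (fun u _ => hasDerivAt_const _ _) (fun u _ => hasDerivAt_const _ _)
      continuousOn_const continuousOn_const continuousOn_const continuousOn_const le_rfl le_rfl
      (fun u _ => by simp) (fun u _ => by simp) (fun u hu => ?_) (fun u hu => ?_) (hcF x R)
      (fun u hu => ?_) ?_
    · intro i j hij
      rw [a1, a2, a3]
      have h1 := hk i j hij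
      have h2 : K.A1 / n ^ 2 * i ^ 2 + K.A2 / n ^ 2 * i * j + K.A3 / n ^ 2 * j ^ 2 =
          (K.A1 * i ^ 2 + K.A2 * i * j + K.A3 * j ^ 2) / n ^ 2 := by
        field_simp
      rw [h2]
      exact div_le_div_of_nonneg_right h1 (by positivity)
    · have hu0 : 0 < u := hA0.trans hu
      have e : K'.P = n * K.P := rfl
      have hP := K.hP
      have h1 : M ≤ u ^ 2 * (2 * Real.pi / K'.P) ^ 2 := by
        rw [e]
        have h2 : u ^ 2 * (2 * Real.pi / (n * K.P)) ^ 2 =
            u * (u * (2 * Real.pi / K.P) ^ 2) / n ^ 2 := by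
          field_simp
        rw [h2, hM]
        apply div_le_div_of_nonneg_right _ (by positivity)
        have h3 : m ≤ u * (2 * Real.pi / K.P) ^ 2 := by
          have : 0 ≤ (2 * Real.pi / K.P) ^ 2 := sq_nonneg _
          nlinarith
        nlinarith
      have h2 : 0 ≤ u⁻¹ ^ 3 := by positivity
      have h3 : u⁻¹ ^ 3 * M ≤ u⁻¹ ^ 3 * (u ^ 2 * (2 * Real.pi / K'.P) ^ 2) :=
        mul_le_mul_of_nonneg_left h1 h2
      simpa using h3
    · have hu0 : 0 < u := hA0.trans hu
      have h1 : M ≤ u * (4 * Real.pi ^ 2 * (k0 / n ^ 2)) := by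
        have h2 : u * (4 * Real.pi ^ 2 * (k0 / n ^ 2)) = u * (4 * Real.pi ^ 2 * k0) / n ^ 2 := by
          field_simp
        rw [h2, hM]
        apply div_le_div_of_nonneg_right _ (by positivity)
        nlinarith
      have h2 : 0 ≤ u⁻¹ ^ 3 := by positivity
      have h3 : u⁻¹ ^ 3 * M ≤ u⁻¹ ^ 3 * (u * (4 * Real.pi ^ 2 * (k0 / n ^ 2))) :=
        mul_le_mul_of_nonneg_left h1 h2
      simpa using h3
    · have hu0 : 0 < u := hA0.trans hu
      have h1 := triple_comm R (G := fun s t v => cj g₀ G f x (PsiE K'.e1 K'.e2 s t v u))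
        (cont_fixedE K'.e1 K'.e2 (contDiffOn_cj hf g₀ x).continuousOn hu0) K'.P
      rw [h1]
      have h2 := hcus (x.out : Gam q)⁻¹ u hu0
      have h3 : ∫ s in (0:ℝ)..1, ∫ t in (0:ℝ)..1, ∫ v in (0:ℝ)..K'.P,
          cj g₀ G f x (PsiE K'.e1 K'.e2 s t v u) = 0 := by
        rw [← h2]
        have hPe : K'.P = n * K.P := rfl
        rw [hPe]
        congr 1
        funext s
        congr 1
        funext t
        congr 1
        funext v
        have hU : PsiE (n * K.e1) (n * K.e2) s t v u ∈ U := by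
          show 0 < height _
          rw [ht_PsiE]
          exact hu0
        show f (act (mat ((x.out : Gam q)⁻¹).1) (act (mat g₀) (PsiE (n * K.e1) (n * K.e2) s t v u))) =
          f (act (mat (((x.out : Gam q)⁻¹).1 * g₀)) (PsiE (n * K.e1) (n * K.e2) s t v u))
        rw [act_act _ _ hU]
      rw [h3, map_zero]
    · refine lt_of_le_of_lt ?_ (hfinC x)
      unfold BW
      refine setLIntegral_mono' measurableSet_Ioi fun u hu => ?_
      have hu0 : 0 < u := hA0.trans hu
      refine lintegral_mono fun s => lintegral_mono fun t => lintegral_mono fun v => ?_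
      apply ENNReal.ofReal_le_ofReal
      exact mul_le_mul_of_nonneg_left (hR _) (by positivity)
  -- energies in the two coordinates
  have hen : ∀ (x : Gam q ⧸ G) (R : ℂ →L[ℝ] ℝ) (z : X),
      energy (fun z => R (cj g₀ G f x z)) z.1 =
        energy (fun z => R (conj G f x z)) (g₀ • z : X).1 := by
    intro x R z
    have hd : DifferentiableAt ℝ (fun z => R (conj G f x z)) (act (mat g₀) z.1) := by
      have h1 : ContDiffOn ℝ 2 (fun z => R (conj G f x z)) U :=
        R.contDiff.comp_contDiffOn (contDiffOn_conj2 hf x)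
      exact (h1.contDiffAt (isOpen_U.mem_nhds (act_mem_U _ z.2))).differentiableAt (by norm_num)
    exact energy_comp g₀ z.2 hd
  have hone : ∀ x : Gam q ⧸ G,
      ∫⁻ z in {z : X | z.1 ∈ K'.Box}, vE (height z.1) *
        ENNReal.ofReal (Complex.normSq (cj g₀ G f x z.1)) ∂mu ≤
      ∫⁻ z in {z : X | z.1 ∈ K'.Box}, above A (height z.1) *
        ENNReal.ofReal (energy (fun z => (conj G f x z).re) (g₀ • z : X).1 +
          energy (fun z => (conj G f x z).im) (g₀ • z : X).1) ∂mu := by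
    intro x
    have h1 := hpart x Complex.reCLM (fun c => by
      rw [Complex.normSq_apply, Complex.reCLM_apply]
      nlinarith [sq_nonneg c.im])
    have h2 := hpart x Complex.imCLM (fun c => by
      rw [Complex.normSq_apply, Complex.imCLM_apply]
      nlinarith [sq_nonneg c.re])
    have mh : Measurable fun z : X => height z.1 := measurable_height
    have b1 : ∫⁻ z in {z : X | z.1 ∈ K'.Box}, vE (height z.1) *
        ENNReal.ofReal (Complex.normSq (cj g₀ G f x z.1)) ∂mu =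
        ∫⁻ z in {z : X | z.1 ∈ K'.Box}, vE (height z.1) *
          ENNReal.ofReal (Complex.reCLM (cj g₀ G f x z.1) ^ 2) ∂mu +
        ∫⁻ z in {z : X | z.1 ∈ K'.Box}, vE (height z.1) *
          ENNReal.ofReal (Complex.imCLM (cj g₀ G f x z.1) ^ 2) ∂mu := by
      have m1 : Measurable fun z : X => vE (height z.1) *
          ENNReal.ofReal (Complex.reCLM (cj g₀ G f x z.1) ^ 2) :=
        (mvE.comp mh).mul (ENNReal.measurable_ofReal.comp (hcn x Complex.reCLM))
      rw [← lintegral_add_left m1]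
      refine lintegral_congr fun z => ?_
      rw [← mul_add, ← ENNReal.ofReal_add (by positivity) (by positivity), Complex.normSq_apply,
        Complex.reCLM_apply, Complex.imCLM_apply]
      congr 2
      ring
    have b2 : ∫⁻ z in {z : X | z.1 ∈ K'.Box}, above A (height z.1) *
        ENNReal.ofReal (energy (fun z => (conj G f x z).re) (g₀ • z : X).1 +
          energy (fun z => (conj G f x z).im) (g₀ • z : X).1) ∂mu =
        ∫⁻ z in {z : X | z.1 ∈ K'.Box}, above A (height z.1) *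
          ENNReal.ofReal (energy (fun z => Complex.reCLM (cj g₀ G f x z)) z.1) ∂mu +
        ∫⁻ z in {z : X | z.1 ∈ K'.Box}, above A (height z.1) *
          ENNReal.ofReal (energy (fun z => Complex.imCLM (cj g₀ G f x z)) z.1) ∂mu := by
      have m1 : Measurable fun z : X => above A (height z.1) *
          ENNReal.ofReal (energy (fun z => Complex.reCLM (cj g₀ G f x z)) z.1) :=
        (mA.comp mh).mul (ENNReal.measurable_ofReal.comp (hce x Complex.reCLM))
      rw [← lintegral_add_left m1]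
      refine lintegral_congr fun z => ?_
      have n1 : 0 ≤ energy (fun z => (conj G f x z).re) (g₀ • z : X).1 :=
        normL_nonneg (g₀ • z : X).2.le _
      have n2 : 0 ≤ energy (fun z => (conj G f x z).im) (g₀ • z : X).1 :=
        normL_nonneg (g₀ • z : X).2.le _
      rw [ENNReal.ofReal_add n1 n2, mul_add, hen x Complex.reCLM z, hen x Complex.imCLM z]
      rfl
    rw [b1, b2]
    exact add_le_add h1 h2
  -- sum over the cosets
  have hEns : ∀ w : X, EnS G f (g₀ • w) = ∑' x : Gam q ⧸ G,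
      ENNReal.ofReal (energy (fun z => (conj G f x z).re) (g₀ • w : X).1 +
          energy (fun z => (conj G f x z).im) (g₀ • w : X).1) := fun w => rfl
  have l3 : ∫⁻ z in {z : X | z.1 ∈ K'.Box}, vE (height z.1) * PhiS G f (g₀ • z) ∂mu ≤
      ∫⁻ z in {z : X | z.1 ∈ K'.Box}, above A (height z.1) * EnS G f (g₀ • z) ∂mu := by
    simp only [hPhi, hEns, tsum_fintype, Finset.mul_sum]
    rw [lintegral_finsetSum, lintegral_finsetSum]
    · exact Finset.sum_le_sum fun x _ => hone x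
    · intro x _
      exact (mA.comp measurable_height).mul ((measurable_energy hf x).comp msm)
    · intro x _
      exact (mvE.comp measurable_height).mul (ENNReal.measurable_ofReal.comp (mN x))
  have l1 : R * (ENNReal.ofReal M *
      ∫⁻ w in {w : X | w.1 ∈ K.Box}, above A (height w.1) * PhiS G f (g₀ • w) ∂mu) =
      ∫⁻ z in {z : X | z.1 ∈ K'.Box}, vE (height z.1) * PhiS G f (g₀ • z) ∂mu := by
    have e1 : ∫⁻ z in {z : X | z.1 ∈ K'.Box}, vE (height z.1) * PhiS G f (g₀ • z) ∂mu =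
        ENNReal.ofReal M *
        ∫⁻ z in {z : X | z.1 ∈ K'.Box}, above A (height z.1) * PhiS G f (g₀ • z) ∂mu := by
      have mm : Measurable fun z : X => above A (height z.1) * PhiS G f (g₀ • z) :=
        (mA.comp measurable_height).mul mP
      rw [← lintegral_const_mul _ mm]
      refine lintegral_congr fun z => ?_
      simp only [hvE]
      rw [mul_assoc]
    rw [e1, uP]
    ring
  rw [uE] at l3
  rw [← l1] at l3
  exact (ENNReal.mul_le_mul_iff_right hR0 hRt).1 l3

end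

end Pool.Agent.Lib.H43T
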