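import Pool.Agent.Lib.H43T.High
import Pool.Agent.Lib.H80D.TG
import Pool.Agent.Lib.H80C.CA2

/-!
# The count of elements of given height at `p` integrated over the box up to height `A n²`
-/

namespace Pool.Agent.Lib.H43T

open Matrix hiding J
open MeasureTheory Topology Filter
open Pool.Agent.Lib.H56.Picard hiding O Gam mem_Gam star_mem_O T_mem sg_mem
open Pool.Agent.Lib.H56.Gen hiding dd dd_pos
open Pool.Agent.Lib.H56D
open Pool.Agent.Lib.H80C (M3 toC Elt Bdd Tdd gm ab count_all QF OK toC_injective toC_star)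
open Pool.Agent.Lib.H80D (qd Hgt)
open scoped ENNReal

noncomputable section

variable {q : QD}

/-- Integral over the box of a function of the height growing at most quadratically. -/
lemma box_height (K : Cusp q) {h T M : ℝ} (hh : 0 < h) (h1 : h ≤ 1) (hT : h ≤ T) (hM : 0 ≤ M) :
    ∫⁻ z in {z : X | z.1 ∈ K.Box ∧ h < height z.1 ∧ height z.1 ≤ T},
      ENNReal.ofReal (M * max (height z.1) 1 ^ 2) ∂mu ≤
      ENNReal.ofReal (K.cv / 4 * K.P * (M * h⁻¹ ^ 2 * Real.log (T / h))) := by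
  classical
  have hcv := K.cv_pos
  have hP := K.hP
  set w : ℝ → ℝ := fun u => if u ≤ T then M * max u 1 ^ 2 else 0 with hw
  set wE : ℝ → ℝ≥0∞ := fun u => if u ≤ h then 0 else ENNReal.ofReal (w u) with hwE
  have mw : Measurable w :=
    Measurable.ite measurableSet_Iic (by fun_prop) measurable_const
  have mwE : Measurable wE :=
    Measurable.ite measurableSet_Iic measurable_const mw.ennreal_ofReal
  have hw0 : ∀ u, 0 ≤ w u := by
    intro u
    simp only [hw]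
    split_ifs
    · positivity
    · exact le_rfl
  have e1 : ∫⁻ z in {z : X | z.1 ∈ K.Box ∧ h < height z.1 ∧ height z.1 ≤ T},
      ENNReal.ofReal (M * max (height z.1) 1 ^ 2) ∂mu ≤
      ∫⁻ z in {z : X | z.1 ∈ K.Box}, wE (height z.1) * ENNReal.ofReal ((fun _ => (1 : ℝ)) z.1) ∂mu := by
    have mB : MeasurableSet {z : X | z.1 ∈ K.Box} :=
      (measurableSet_Box K).preimage measurable_subtype_coe
    have mh : Measurable fun z : X => height z.1 :=
      continuous_height.measurable.comp measurable_subtype_coe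
    have mS : MeasurableSet {z : X | z.1 ∈ K.Box ∧ h < height z.1 ∧ height z.1 ≤ T} := by
      have e : {z : X | z.1 ∈ K.Box ∧ h < height z.1 ∧ height z.1 ≤ T} =
          {z : X | z.1 ∈ K.Box} ∩ {z : X | height z.1 ∈ Set.Ioc h T} := by
        ext z
        rfl
      rw [e]
      exact mB.inter (mh measurableSet_Ioc)
    rw [← lintegral_indicator mS, ← lintegral_indicator mB]
    refine lintegral_mono fun z => ?_
    by_cases hz : z ∈ {z : X | z.1 ∈ K.Box ∧ h < height z.1 ∧ height z.1 ≤ T}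
    · rw [Set.indicator_of_mem hz, Set.indicator_of_mem (show z ∈ {z : X | z.1 ∈ K.Box} from hz.1)]
      simp only [hwE, hw, ENNReal.ofReal_one, mul_one]
      rw [if_neg (not_le.2 hz.2.1), if_pos hz.2.2]
    · rw [Set.indicator_of_notMem hz]
      exact zero_le
  refine e1.trans ?_
  rw [lintegral_Box_weight K hh mwE (fun u _ => hw0 u)
    (fun u hu => by simp only [hwE]; rw [if_neg (not_le.2 hu)])
    (fun u hu => by simp only [hwE]; rw [if_pos hu]) (fun _ => 1) measurable_const]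
  have e2 : BW h K.P (fun s t v u => w u * (fun _ => (1 : ℝ)) (PsiE K.e1 K.e2 s t v u)) ≤
      ENNReal.ofReal K.P * ENNReal.ofReal (M * h⁻¹ ^ 2 * Real.log (T / h)) := by
    unfold BW
    simp only [mul_one, lintegral_const, Measure.restrict_apply MeasurableSet.univ, Set.univ_inter,
      Real.volume_Icc, sub_zero, ENNReal.ofReal_one]
    rw [lintegral_mul_const _ (by
      have m1 : Measurable fun u : ℝ => u⁻¹ ^ 3 * w u := (measurable_inv.pow_const 3).mul mw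
      exact m1.ennreal_ofReal), mul_comm]
    gcongr
    -- the integral over u
    have e3 : ∫⁻ u in Set.Ioi h, ENNReal.ofReal (u⁻¹ ^ 3 * w u) ≤
        ∫⁻ u in Set.Ioc h T, ENNReal.ofReal (M * h⁻¹ ^ 2 * u⁻¹) := by
      rw [← lintegral_indicator measurableSet_Ioi, ← lintegral_indicator measurableSet_Ioc]
      refine lintegral_mono fun u => ?_
      by_cases hu : h < u
      · rw [Set.indicator_of_mem (show u ∈ Set.Ioi h from hu)]
        by_cases huT : u ≤ T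
        · rw [Set.indicator_of_mem (show u ∈ Set.Ioc h T from ⟨hu, huT⟩)]
          apply ENNReal.ofReal_le_ofReal
          simp only [hw]
          rw [if_pos huT]
          have hu0 : 0 < u := hh.trans hu
          have hi : 0 < u⁻¹ := inv_pos.2 hu0
          have hi2 : u⁻¹ ≤ h⁻¹ := inv_anti₀ hh hu.le
          have h1i : 1 ≤ h⁻¹ := (one_le_inv₀ hh).2 h1
          have h3 : u⁻¹ * max u 1 ≤ h⁻¹ := by
            rcases le_total u 1 with h4 | h4
            · rw [max_eq_right h4, mul_one]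
              exact hi2
            · rw [max_eq_left h4, inv_mul_cancel₀ hu0.ne']
              exact h1i
          have h5 : 0 ≤ u⁻¹ * max u 1 := by positivity
          have h6 : (u⁻¹ * max u 1) ^ 2 ≤ h⁻¹ ^ 2 := pow_le_pow_left₀ h5 h3 2
          calc u⁻¹ ^ 3 * (M * max u 1 ^ 2) = M * (u⁻¹ * max u 1) ^ 2 * u⁻¹ := by ring
            _ ≤ M * h⁻¹ ^ 2 * u⁻¹ := by gcongr
        · rw [Set.indicator_of_notMem (show u ∉ Set.Ioc h T from fun hc => huT hc.2)]
          simp only [hw]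
          rw [if_neg huT]
          simp
      · rw [Set.indicator_of_notMem (show u ∉ Set.Ioi h from hu)]
        exact zero_le
    refine e3.trans (le_of_eq ?_)
    have hci : ContinuousOn (fun u : ℝ => M * h⁻¹ ^ 2 * u⁻¹) (Set.uIcc h T) := by
      rw [Set.uIcc_of_le hT]
      refine continuousOn_const.mul (continuousOn_inv₀.mono fun x hx => ?_)
      exact (lt_of_lt_of_le hh hx.1).ne'
    have hint : IntervalIntegrable (fun u : ℝ => M * h⁻¹ ^ 2 * u⁻¹) volume h T :=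
      hci.intervalIntegrable
    rw [← ofReal_integral_eq_lintegral_ofReal]
    · rw [← intervalIntegral.integral_of_le hT, intervalIntegral.integral_const_mul,
        integral_inv_of_pos hh (lt_of_lt_of_le hh hT)]
    · exact (intervalIntegrable_iff_integrableOn_Ioc_of_le hT).1 hint
    · refine (ae_restrict_iff' measurableSet_Ioc).2 (Eventually.of_forall fun u hu => ?_)
      have hu0 : 0 < u := hh.trans hu.1
      show 0 ≤ M * h⁻¹ ^ 2 * u⁻¹
      positivity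
  refine (mul_le_mul_right e2 _).trans (le_of_eq ?_)
  rw [← ENNReal.ofReal_mul hP.le, ← ENNReal.ofReal_mul (by positivity)]
  congr 1
  ring

/-- The elements counted. -/
def KS (q : QD) (p n j : ℕ) (S : ℝ) (z : ℂ × ℂ) : Set SU21 :=
  {g | Hgt q p n j g ∧ sgm z (act (mat g) z) ≤ S}

lemma toC_el'' (q : QD) (a b : ℤ) : toC (qd q) ⟨a, b⟩ = el q a b := by
  apply Complex.ext
  · rw [Pool.Agent.Lib.H80C.toC_re, el_re]
    simp only [qd]
  · rw [Pool.Agent.Lib.H80C.toC_im, el_im]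
    have e : Pool.Agent.Lib.H80C.dd (qd q) = Pool.Agent.Lib.H56.Gen.dd q := rfl
    rw [e]
    simp only [sd]

/-- The integral matrix of an element. -/
lemma exists_M (q : QD) {p n j : ℕ} {g : SU21} (hg : Hgt q p n j g) :
    ∃ M : M3 (qd q), Elt n (p ^ j) M ∧
      ∀ i k, (p : ℂ) ^ j * mat g i k = toC (qd q) (gm n (p ^ j) M i k) := by
  have h1 := hg.1
  choose x hx hxe using h1
  have h2 : ∀ i k, ∃ y : OK (qd q), x i k = toC (qd q) y := by
    intro i k
    obtain ⟨a, b, hab⟩ := hx i k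
    exact ⟨⟨a, b⟩, by rw [toC_el'', hab]⟩
  choose M hM using h2
  have hmat : ∀ i k, (p : ℂ) ^ j * mat g i k = toC (qd q) (gm n (p ^ j) (Matrix.of M) i k) := by
    intro i k
    have e1 := hxe i k
    rw [hM i k] at e1
    have e2 : gm n (p ^ j) (Matrix.of M) i k =
        ((p ^ j : ℕ) : OK (qd q)) * (1 : M3 (qd q)) i k + (n : OK (qd q)) * M i k := by
      simp [gm, Matrix.add_apply, Matrix.smul_apply]
    rw [e2, map_add, map_mul, map_mul, map_natCast, map_natCast, ← e1]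
    have e3 : toC (qd q) ((1 : M3 (qd q)) i k) = (1 : Matrix (Fin 3) (Fin 3) ℂ) i k := by
      rw [Matrix.one_apply, Matrix.one_apply]
      split_ifs
      · exact map_one _
      · exact map_zero _
    rw [e3]
    push_cast
    ring
  refine ⟨Matrix.of M, ⟨?_, ?_⟩, hmat⟩
  · -- unitarity
    have hu := mat_unitary g
    have key : ((gm n (p ^ j) (Matrix.of M)).map (toC (qd q))) = ((p : ℂ) ^ j) • mat g := by
      ext i k
      rw [Matrix.map_apply, ← hmat, Matrix.smul_apply, smul_eq_mul]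
    apply Matrix.map_injective toC_injective
    have hJ : (Pool.Agent.Lib.H80C.JZ (qd q)).map (toC (qd q)) = J := by
      ext i k
      fin_cases i <;> fin_cases k <;> simp [Pool.Agent.Lib.H80C.JZ, J]
    have hH : ((gm n (p ^ j) (Matrix.of M))ᴴ).map (toC (qd q)) =
        (((p : ℂ) ^ j) • mat g)ᴴ := by
      rw [← key]
      ext i k
      rw [Matrix.map_apply, Matrix.conjTranspose_apply, Matrix.conjTranspose_apply,
        Matrix.map_apply, toC_star]
    have e1 : ((gm n (p ^ j) (Matrix.of M))ᴴ * Pool.Agent.Lib.H80C.JZ (qd q) *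
        gm n (p ^ j) (Matrix.of M)).map (toC (qd q)) =
        (((p : ℂ) ^ j) • mat g)ᴴ * J * (((p : ℂ) ^ j) • mat g) := by
      rw [Matrix.map_mul, Matrix.map_mul, hH, hJ, key]
    show ((gm n (p ^ j) (Matrix.of M))ᴴ * Pool.Agent.Lib.H80C.JZ (qd q) *
        gm n (p ^ j) (Matrix.of M)).map (toC (qd q)) =
      ((((p ^ j : ℕ) : OK (qd q)) ^ 2) • Pool.Agent.Lib.H80C.JZ (qd q)).map (toC (qd q))
    rw [e1]
    have e2 : ((((p ^ j : ℕ) : OK (qd q)) ^ 2) • Pool.Agent.Lib.H80C.JZ (qd q)).map (toC (qd q)) =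
        (((p : ℂ) ^ j) ^ 2) • J := by
      ext i k
      rw [Matrix.map_apply, Matrix.smul_apply, smul_eq_mul, map_mul, map_pow, map_natCast,
        Matrix.smul_apply, smul_eq_mul, ← hJ, Matrix.map_apply]
      push_cast
      ring
    rw [e2, Matrix.conjTranspose_smul, Matrix.smul_mul, Matrix.smul_mul, Matrix.mul_smul, hu,
      smul_smul]
    congr 1
    simp
    ring
  · -- determinant
    apply toC_injective
    have key : ((gm n (p ^ j) (Matrix.of M)).map (toC (qd q))) = ((p : ℂ) ^ j) • mat g := by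
      ext i k
      rw [Matrix.map_apply, ← hmat, Matrix.smul_apply, smul_eq_mul]
    rw [RingHom.map_det, RingHom.mapMatrix_apply, key, Matrix.det_smul, map_pow, map_natCast]
    have hd : (mat g).det = 1 := g.2.2
    rw [hd]
    simp

/-- The number of elements counted at the point `g₀ z`, `z` in the box. -/
lemma count_point (K : Cusp q) {h : ℝ} (hh : 0 < h) (hh1 : h ≤ 1) (g₀ : SU21) {ε : ℝ}
    (hε : 0 < ε) {S : ℝ} (hS : 1 ≤ S) : ∃ C : ℝ, 1 ≤ C ∧
    ∀ p n j : ℕ, 1 ≤ p → 1 ≤ n → Nat.Coprime n p → ∀ z ∈ K.Box, h < height z →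
      (KS q p n j S (act (mat g₀) z)).Finite ∧
        ((KS q p n j S (act (mat g₀) z)).ncard : ℝ) ≤
        C * ((p : ℝ) ^ j * max (height z) 1) ^ ε *
          ((1 + ((p : ℝ) ^ j) ^ 2 / (n : ℝ) ^ 2 + ((p : ℝ) ^ j) ^ 4 / (n : ℝ) ^ 8) *
            max (height z) 1 ^ 2) := by
  obtain ⟨C1, hC1, hent⟩ := entries_g K hh hh1 g₀
  obtain ⟨C2, hC2, hcount⟩ := count_all (qd q) hε
  set K1 : ℝ := C1 * √S with hK1
  have hS1 : 1 ≤ √S := Real.one_le_sqrt.2 hS
  have hK1' : 1 ≤ K1 := by nlinarith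
  refine ⟨max 1 (C2 * K1 ^ ε * (3 * K1 ^ 4)), le_max_left _ _, ?_⟩
  intro p n j hp hn hnp z hz hhz
  set P : ℝ := (p : ℝ) ^ j with hP
  have hp1 : (1 : ℝ) ≤ p := by exact_mod_cast hp
  have hn1 : (1 : ℝ) ≤ n := by exact_mod_cast hn
  have hP1 : 1 ≤ P := one_le_pow₀ hp1
  set m : ℝ := max (height z) 1 with hm
  have hm1 : 1 ≤ m := le_max_right _ _
  have hPc : ((p ^ j : ℕ) : ℝ) = P := by push_cast; rfl
  obtain ⟨hfin, hcard⟩ := hcount n (p ^ j) hn (Nat.one_le_pow _ _ hp) (hnp.pow_right j)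
    (K1 * P * m) (K1 * P) (by
      rw [hPc]
      have : P ≤ K1 * P := by nlinarith
      have h2 : K1 * P ≤ K1 * P * m := le_mul_of_one_le_right (by positivity) hm1
      linarith) (by
      rw [hPc]
      nlinarith)
  -- the injection
  set W : Set (M3 (qd q)) := {M | Elt n (p ^ j) M ∧ Bdd n (p ^ j) (K1 * P * m) M ∧
    Tdd n (p ^ j) (K1 * P) M} with hW
  have hex : ∀ g ∈ KS q p n j S (act (mat g₀) z), ∃ M : M3 (qd q), M ∈ W ∧
      ∀ i k, (p : ℂ) ^ j * mat g i k = toC (qd q) (gm n (p ^ j) M i k) := by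
    intro g hg
    obtain ⟨M, hM, hMe⟩ := exists_M q hg.1
    have hb := hent z hz hhz g
    have hpn : ‖(p : ℂ) ^ j‖ = P := by
      rw [norm_pow, Complex.norm_natCast]
    have hsq : √(sgm (act (mat g₀) z) (act (mat g) (act (mat g₀) z))) ≤ √S :=
      Real.sqrt_le_sqrt hg.2
    refine ⟨M, ⟨hM, fun i k => ?_, ?_⟩, hMe⟩
    · unfold ab
      rw [← hMe, norm_mul, hpn]
      have h1 := hb.1 i k
      calc P * ‖mat g i k‖ ≤ P * (C1 * m * √S) := by
            gcongr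
            refine h1.trans ?_
            gcongr
        _ = K1 * P * m := by rw [hK1]; ring
    · unfold Tdd ab
      have h3 : toC (qd q) (gm n (p ^ j) M).trace = (p : ℂ) ^ j * (mat g).trace := by
        rw [Matrix.trace_fin_three, Matrix.trace_fin_three, map_add, map_add, ← hMe, ← hMe, ← hMe]
        ring
      rw [h3, norm_mul, hpn]
      have h1 := hb.2
      calc P * ‖(mat g).trace‖ ≤ P * (C1 * √S) := by
            gcongr
            refine h1.trans ?_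
            gcongr
        _ = K1 * P := by rw [hK1]; ring
  choose! F hF hFe using hex
  have hinj : Set.InjOn F (KS q p n j S (act (mat g₀) z)) := by
    intro g hg g' hg' hgg
    apply mat_injective
    ext i k
    have h1 := hFe g hg i k
    have h2 := hFe g' hg' i k
    rw [hgg, ← h2] at h1
    have hpc : (p : ℂ) ^ j ≠ 0 := by
      have : (p : ℂ) ≠ 0 := by exact_mod_cast (by omega : p ≠ 0)
      exact pow_ne_zero _ this
    exact mul_left_cancel₀ hpc h1
  have hfinK : (KS q p n j S (act (mat g₀) z)).Finite :=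
    Set.Finite.of_injOn (fun g hg => hF g hg) hinj hfin
  refine ⟨hfinK, ?_⟩
  have hle : (KS q p n j S (act (mat g₀) z)).ncard ≤ W.ncard :=
    Set.ncard_le_ncard_of_injOn F (fun g hg => hF g hg) hinj hfin
  have h1 : ((KS q p n j S (act (mat g₀) z)).ncard : ℝ) ≤ (W.ncard : ℝ) := by exact_mod_cast hle
  refine h1.trans (hcard.trans ?_)
  -- arithmetic
  have hE : (K1 * P * m) ^ ε = K1 ^ ε * (P * m) ^ ε := by
    rw [mul_assoc, Real.mul_rpow (by positivity) (by positivity)]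
  set a : ℝ := P ^ 2 / (n : ℝ) ^ 2 with ha
  set b : ℝ := P ^ 4 / (n : ℝ) ^ 8 with hb
  have hn0 : (0 : ℝ) < n := by linarith
  have ha0 : 0 ≤ a := by positivity
  have hb0 : 0 ≤ b := by positivity
  have hkey : 1 + (K1 * P * m) ^ 2 / (n : ℝ) ^ 2 +
      (1 + K1 * P / (n : ℝ) ^ 2) * (1 + K1 * P / (n : ℝ) ^ 3) *
        ((K1 * P * m) ^ 2 / (n : ℝ) ^ 3) ≤ 3 * K1 ^ 4 * ((1 + a + b) * m ^ 2) := by
    have hm2 : 1 ≤ m ^ 2 := one_le_pow₀ hm1
    have hK2 : 1 ≤ K1 ^ 2 := one_le_pow₀ hK1'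
    have hK4 : K1 ^ 2 ≤ K1 ^ 4 := pow_le_pow_right₀ hK1' (by norm_num)
    have hK3 : K1 ^ 3 ≤ K1 ^ 4 := pow_le_pow_right₀ hK1' (by norm_num)
    -- pieces
    have t1 : (K1 * P * m) ^ 2 / (n : ℝ) ^ 2 = K1 ^ 2 * m ^ 2 * a := by
      rw [ha]; ring
    have t2 : (1 + K1 * P / (n : ℝ) ^ 2) * (1 + K1 * P / (n : ℝ) ^ 3) *
        ((K1 * P * m) ^ 2 / (n : ℝ) ^ 3) = m ^ 2 * (K1 ^ 2 * (P ^ 2 / n ^ 3) +
          K1 ^ 3 * (P ^ 3 / n ^ 5) + K1 ^ 3 * (P ^ 3 / n ^ 6) + K1 ^ 4 * (P ^ 4 / n ^ 8)) := by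
      field_simp
      ring
    have t3 : P ^ 2 / (n : ℝ) ^ 3 ≤ a := by
      rw [ha]
      apply div_le_div_of_nonneg_left (by positivity) (by positivity)
      exact pow_le_pow_right₀ hn1 (by norm_num)
    have t4 : P ^ 3 / (n : ℝ) ^ 5 ≤ (a + b) / 2 := by
      have h5 : 2 * (P / n) * (P ^ 2 / n ^ 4) ≤ (P / n) ^ 2 + (P ^ 2 / n ^ 4) ^ 2 :=
        two_mul_le_add_sq _ _
      have h6 : (P / n) * (P ^ 2 / (n : ℝ) ^ 4) = P ^ 3 / n ^ 5 := by
        field_simp
      have h7 : (P / n) ^ 2 = a := by rw [ha]; ring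
      have h8 : (P ^ 2 / (n : ℝ) ^ 4) ^ 2 = b := by rw [hb]; ring
      rw [mul_assoc, h6, h7, h8] at h5
      linarith
    have t5 : P ^ 3 / (n : ℝ) ^ 6 ≤ (a + b) / 2 := by
      refine le_trans ?_ t4
      apply div_le_div_of_nonneg_left (by positivity) (by positivity)
      exact pow_le_pow_right₀ hn1 (by norm_num)
    rw [t1, t2]
    have hK40 : 0 ≤ K1 ^ 4 := by positivity
    have s1 : (1 : ℝ) ≤ K1 ^ 4 * m ^ 2 := by
      calc (1 : ℝ) = 1 * 1 := by ring
        _ ≤ K1 ^ 4 * m ^ 2 := mul_le_mul (hK2.trans hK4) hm2 zero_le_one hK40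
    have s2 : K1 ^ 2 * m ^ 2 * a ≤ K1 ^ 4 * m ^ 2 * a := by gcongr
    have s3 : K1 ^ 2 * (P ^ 2 / (n : ℝ) ^ 3) ≤ K1 ^ 4 * a :=
      mul_le_mul hK4 t3 (by positivity) hK40
    have s4 : K1 ^ 3 * (P ^ 3 / (n : ℝ) ^ 5) ≤ K1 ^ 4 * ((a + b) / 2) :=
      mul_le_mul hK3 t4 (by positivity) hK40
    have s5 : K1 ^ 3 * (P ^ 3 / (n : ℝ) ^ 6) ≤ K1 ^ 4 * ((a + b) / 2) :=
      mul_le_mul hK3 t5 (by positivity) hK40
    have s6 : K1 ^ 4 * (P ^ 4 / (n : ℝ) ^ 8) = K1 ^ 4 * b := by rw [hb]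
    have s7 : m ^ 2 * (K1 ^ 2 * (P ^ 2 / n ^ 3) +
          K1 ^ 3 * (P ^ 3 / n ^ 5) + K1 ^ 3 * (P ^ 3 / n ^ 6) + K1 ^ 4 * (P ^ 4 / n ^ 8)) ≤
          m ^ 2 * (K1 ^ 4 * a + K1 ^ 4 * ((a + b) / 2) + K1 ^ 4 * ((a + b) / 2) + K1 ^ 4 * b) := by
      gcongr
    have s8 : 0 ≤ K1 ^ 4 * m ^ 2 := by positivity
    have s9 : 0 ≤ K1 ^ 4 * m ^ 2 * b := by positivity
    nlinarith
  rw [hE]
  have hKε : 0 ≤ K1 ^ ε := by positivity
  have hPm : 0 ≤ (P * m) ^ ε := by positivity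
  calc C2 * (K1 ^ ε * (P * m) ^ ε) * (1 + (K1 * P * m) ^ 2 / (n : ℝ) ^ 2 +
      (1 + K1 * P / (n : ℝ) ^ 2) * (1 + K1 * P / (n : ℝ) ^ 3) *
        ((K1 * P * m) ^ 2 / (n : ℝ) ^ 3)) ≤
      C2 * (K1 ^ ε * (P * m) ^ ε) * (3 * K1 ^ 4 * ((1 + a + b) * m ^ 2)) := by
        gcongr
    _ = (C2 * K1 ^ ε * (3 * K1 ^ 4)) * (P * m) ^ ε * ((1 + a + b) * m ^ 2) := by ring
    _ ≤ _ := by
      gcongr
      exact le_max_right _ _

open Classical in
lemma tsum_KS (p n j : ℕ) (S : ℝ) (z : ℂ × ℂ) (hfin : (KS q p n j S z).Finite) :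
    (∑' g : {g : SU21 // Hgt q p n j g}, if sgm z (act (mat g.1) z) ≤ S then (1 : ℝ≥0∞) else 0) =
      ENNReal.ofReal ((KS q p n j S z).ncard : ℝ) := by
  have e1 := tsum_subtype {g : SU21 | Hgt q p n j g}
    (fun g => if sgm z (act (mat g) z) ≤ S then (1 : ℝ≥0∞) else 0)
  have e2 := tsum_subtype (KS q p n j S z) (fun _ => (1 : ℝ≥0∞))
  have e3 : {g : SU21 | Hgt q p n j g}.indicator
      (fun g => if sgm z (act (mat g) z) ≤ S then (1 : ℝ≥0∞) else 0) =
      (KS q p n j S z).indicator (fun _ => (1 : ℝ≥0∞)) := by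
    funext g
    by_cases h1 : Hgt q p n j g
    · rw [Set.indicator_of_mem (show g ∈ {g : SU21 | Hgt q p n j g} from h1)]
      by_cases h2 : sgm z (act (mat g) z) ≤ S
      · rw [if_pos h2, Set.indicator_of_mem (show g ∈ KS q p n j S z from ⟨h1, h2⟩)]
      · rw [if_neg h2, Set.indicator_of_notMem (show g ∉ KS q p n j S z from fun h => h2 h.2)]
    · rw [Set.indicator_of_notMem (show g ∉ {g : SU21 | Hgt q p n j g} from h1),
        Set.indicator_of_notMem (show g ∉ KS q p n j S z from fun h => h1 h.1)]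
  rw [e3, ← e2] at e1
  have e4 : (∑' g : {g : SU21 // Hgt q p n j g},
      if sgm z (act (mat g.1) z) ≤ S then (1 : ℝ≥0∞) else 0) =
      ∑' _ : ↥(KS q p n j S z), (1 : ℝ≥0∞) := e1
  rw [e4, ENNReal.tsum_set_one, ← hfin.cast_ncard_eq, ENNReal.ofReal_natCast]
  rfl

open Classical in
/-- **The integrated count**, up to height `A n²`, at the cusp `g₀ ∞`. -/
theorem int_count (K : Cusp q) {h : ℝ} (hh : 0 < h) (hh1 : h ≤ 1) (g₀ : SU21) {ε : ℝ}
    (hε : 0 < ε) {A S : ℝ} (hA : 1 ≤ A) (hS : 1 ≤ S) :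
    ∃ C : ℝ, 0 < C ∧ ∀ p n j : ℕ, 1 ≤ p → 1 ≤ n → Nat.Coprime n p →
      ∫⁻ z in {z : X | z.1 ∈ K.Box ∧ h < height z.1 ∧ height z.1 ≤ A * (n : ℝ) ^ 2},
        (∑' g : {g : SU21 // Hgt q p n j g},
          if sgm (act (mat g₀) z.1) (act (mat g.1) (act (mat g₀) z.1)) ≤ S then (1 : ℝ≥0∞) else 0) ∂mu ≤
      ENNReal.ofReal (C * ((p : ℝ) ^ j * n) ^ ε *
        (1 + ((p : ℝ) ^ j) ^ 2 / (n : ℝ) ^ 2 + ((p : ℝ) ^ j) ^ 4 / (n : ℝ) ^ 8)) := by
  set e : ℝ := ε / 4 with he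
  have he0 : 0 < e := by positivity
  obtain ⟨C1, hC1, hpt⟩ := count_point K hh hh1 g₀ he0 hS
  have hcv := K.cv_pos
  have hP := K.hP
  refine ⟨K.cv / 4 * K.P * (C1 * A ^ e * h⁻¹ ^ 2 * ((A / h) ^ e / e)), by positivity, ?_⟩
  intro p n j hp hn hnp
  set P : ℝ := (p : ℝ) ^ j with hPdef
  have hp1 : (1 : ℝ) ≤ p := by exact_mod_cast hp
  have hn1 : (1 : ℝ) ≤ n := by exact_mod_cast hn
  have hP1 : 1 ≤ P := one_le_pow₀ hp1
  have hn0 : (0 : ℝ) < n := by linarith
  have hn2 : (1 : ℝ) ≤ (n : ℝ) ^ 2 := one_le_pow₀ hn1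
  have hT1 : 1 ≤ A * (n : ℝ) ^ 2 := by nlinarith
  set B : ℝ := 1 + P ^ 2 / (n : ℝ) ^ 2 + P ^ 4 / (n : ℝ) ^ 8 with hB
  have hB0 : 0 ≤ B := by positivity
  set M : ℝ := C1 * (P * (A * (n : ℝ) ^ 2)) ^ e * B with hM
  have hM0 : 0 ≤ M := by positivity
  have mS : MeasurableSet {z : X | z.1 ∈ K.Box ∧ h < height z.1 ∧
      height z.1 ≤ A * (n : ℝ) ^ 2} := by
    have mB : MeasurableSet {z : X | z.1 ∈ K.Box} :=
      (measurableSet_Box K).preimage measurable_subtype_coe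
    have mh : Measurable fun z : X => height z.1 :=
      continuous_height.measurable.comp measurable_subtype_coe
    exact mB.inter (mh measurableSet_Ioc)
  have h1 : ∫⁻ z in {z : X | z.1 ∈ K.Box ∧ h < height z.1 ∧ height z.1 ≤ A * (n : ℝ) ^ 2},
        (∑' g : {g : SU21 // Hgt q p n j g},
          if sgm (act (mat g₀) z.1) (act (mat g.1) (act (mat g₀) z.1)) ≤ S then (1 : ℝ≥0∞) else 0) ∂mu ≤
      ∫⁻ z in {z : X | z.1 ∈ K.Box ∧ h < height z.1 ∧ height z.1 ≤ A * (n : ℝ) ^ 2},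
        ENNReal.ofReal (M * max (height z.1) 1 ^ 2) ∂mu := by
    refine setLIntegral_mono' mS fun z hz => ?_
    obtain ⟨hf, hc⟩ := hpt p n j hp hn hnp z.1 hz.1 hz.2.1
    rw [tsum_KS p n j S (act (mat g₀) z.1) hf]
    apply ENNReal.ofReal_le_ofReal
    refine hc.trans ?_
    have hmax : max (height z.1) 1 ≤ A * (n : ℝ) ^ 2 := max_le hz.2.2 hT1
    have hmax0 : 0 ≤ max (height z.1) 1 := le_trans zero_le_one (le_max_right _ _)
    have h2 : (P * max (height z.1) 1) ^ e ≤ (P * (A * (n : ℝ) ^ 2)) ^ e :=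
      Real.rpow_le_rpow (by positivity) (by gcongr) he0.le
    calc C1 * (P * max (height z.1) 1) ^ e * (B * max (height z.1) 1 ^ 2) ≤
        C1 * (P * (A * (n : ℝ) ^ 2)) ^ e * (B * max (height z.1) 1 ^ 2) := by gcongr
      _ = M * max (height z.1) 1 ^ 2 := by rw [hM]; ring
  refine h1.trans ((box_height K hh hh1 (hh1.trans hT1) hM0).trans ?_)
  apply ENNReal.ofReal_le_ofReal
  have hlog : Real.log (A * (n : ℝ) ^ 2 / h) ≤ (A * (n : ℝ) ^ 2 / h) ^ e / e :=
    Real.log_le_rpow_div (by positivity) he0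
  have hA0 : 0 < A := by linarith
  have hP0 : 0 < P := by linarith
  have e1 : (P * (A * (n : ℝ) ^ 2)) ^ e = A ^ e * (P * (n : ℝ) ^ 2) ^ e := by
    rw [← Real.mul_rpow (by positivity) (by positivity)]
    congr 1
    ring
  have e2 : (A * (n : ℝ) ^ 2 / h) ^ e = (A / h) ^ e * ((n : ℝ) ^ 2) ^ e := by
    rw [← Real.mul_rpow (by positivity) (by positivity)]
    congr 1
    ring
  have e3 : (P * (n : ℝ) ^ 2) ^ e * ((n : ℝ) ^ 2) ^ e ≤ (P * n) ^ ε := by
    rw [← Real.mul_rpow (by positivity) (by positivity)]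
    have h4 : P * (n : ℝ) ^ 2 * (n : ℝ) ^ 2 ≤ (P * n) ^ (4 : ℝ) := by
      rw [show (4 : ℝ) = ((4 : ℕ) : ℝ) by norm_num, Real.rpow_natCast]
      have h5 : P ≤ P ^ 4 := le_self_pow₀ hP1 (by norm_num)
      calc P * (n : ℝ) ^ 2 * (n : ℝ) ^ 2 = P * (n : ℝ) ^ 4 := by ring
        _ ≤ P ^ 4 * (n : ℝ) ^ 4 := by gcongr
        _ = (P * n) ^ 4 := by ring
    calc (P * (n : ℝ) ^ 2 * (n : ℝ) ^ 2) ^ e ≤ ((P * n) ^ (4 : ℝ)) ^ e :=
          Real.rpow_le_rpow (by positivity) h4 he0.le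
      _ = (P * n) ^ ε := by
          rw [← Real.rpow_mul (by positivity), he]
          congr 1
          ring
  have hA1 : 0 ≤ A ^ e := by positivity
  calc K.cv / 4 * K.P * (M * h⁻¹ ^ 2 * Real.log (A * (n : ℝ) ^ 2 / h)) ≤
      K.cv / 4 * K.P * (M * h⁻¹ ^ 2 * ((A * (n : ℝ) ^ 2 / h) ^ e / e)) := by
        gcongr
    _ = K.cv / 4 * K.P * (C1 * A ^ e * h⁻¹ ^ 2 * ((A / h) ^ e / e)) *
        ((P * (n : ℝ) ^ 2) ^ e * ((n : ℝ) ^ 2) ^ e) * B := by
        rw [hM, e1, e2]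
        ring
    _ ≤ K.cv / 4 * K.P * (C1 * A ^ e * h⁻¹ ^ 2 * ((A / h) ^ e / e)) *
        (P * n) ^ ε * B := by
        gcongr

end

end Pool.Agent.Lib.H43T
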