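import Pool.Agent.Lib.H56D.S3
import Pool.Agent.Lib.H56D.S6
import Pool.Agent.Lib.H56.Gen.LevelCoord

/-!
# Group elements moving a high point of the box by a bounded distance

If `z` lies in the box at height `u` and `σ(z, g z) ≤ S` then the entries of `g` are `≪ max(u,1) √S`
and the trace of `g` is `≪ √S`.
-/

namespace Pool.Agent.Lib.H43T

open Matrix hiding J
open MeasureTheory Topology Filter
open Pool.Agent.Lib.H56.Picard hiding O Gam mem_Gam star_mem_O T_mem sg_mem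
open Pool.Agent.Lib.H56.Gen
open Pool.Agent.Lib.H56D
open scoped ENNReal

noncomputable section

variable {q : QD}

lemma mul_entry {A B : Matrix (Fin 3) (Fin 3) ℂ} {a b : ℝ} (ha0 : 0 ≤ a)
    (ha : ∀ i j, ‖A i j‖ ≤ a) (hb : ∀ i j, ‖B i j‖ ≤ b) (i j : Fin 3) :
    ‖(A * B) i j‖ ≤ 3 * (a * b) := by
  rw [Matrix.mul_apply]
  calc ‖∑ k, A i k * B k j‖ ≤ ∑ k, ‖A i k * B k j‖ := norm_sum_le _ _
    _ ≤ ∑ _k : Fin 3, a * b := by
      refine Finset.sum_le_sum fun k _ => ?_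
      rw [norm_mul]
      exact mul_le_mul (ha i k) (hb k j) (norm_nonneg _) ha0
    _ = 3 * (a * b) := by
      simp

lemma inv_entry (g : SU21) (i j : Fin 3) : ∃ i' j', mat g⁻¹ i j = star (mat g i' j') := by
  rw [mat_inv]
  fin_cases i <;> fin_cases j
  · exact ⟨2, 2, by simp [J, Matrix.mul_apply, Matrix.vecMul, dotProduct, Fin.sum_univ_three]⟩
  · exact ⟨1, 2, by simp [J, Matrix.mul_apply, Matrix.vecMul, dotProduct, Fin.sum_univ_three]⟩
  · exact ⟨0, 2, by simp [J, Matrix.mul_apply, Matrix.vecMul, dotProduct, Fin.sum_univ_three]⟩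
  · exact ⟨2, 1, by simp [J, Matrix.mul_apply, Matrix.vecMul, dotProduct, Fin.sum_univ_three]⟩
  · exact ⟨1, 1, by simp [J, Matrix.mul_apply, Matrix.vecMul, dotProduct, Fin.sum_univ_three]⟩
  · exact ⟨0, 1, by simp [J, Matrix.mul_apply, Matrix.vecMul, dotProduct, Fin.sum_univ_three]⟩
  · exact ⟨2, 0, by simp [J, Matrix.mul_apply, Matrix.vecMul, dotProduct, Fin.sum_univ_three]⟩
  · exact ⟨1, 0, by simp [J, Matrix.mul_apply, Matrix.vecMul, dotProduct, Fin.sum_univ_three]⟩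
  · exact ⟨0, 0, by simp [J, Matrix.mul_apply, Matrix.vecMul, dotProduct, Fin.sum_univ_three]⟩

/-- conjugation by the diagonal matrix -/
lemma diag_conj {r M s : ℝ} (hr : 0 < r) (hM1 : 1 ≤ M) (hr2 : r ^ 2 ≤ M) (hr3 : (r⁻¹) ^ 2 ≤ M)
    {k : Matrix (Fin 3) (Fin 3) ℂ} (hk : ∀ i j, ‖k i j‖ ≤ s) (i j : Fin 3) :
    ‖(s3D r * k * s3D r⁻¹) i j‖ ≤ M * s := by
  have hs : 0 ≤ s := (norm_nonneg _).trans (hk 0 0)
  have hi : 0 < r⁻¹ := inv_pos.2 hr
  have h1 : r ≤ M := by
    by_contra hcon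
    push Not at hcon
    nlinarith
  have h2 : r⁻¹ ≤ M := by
    by_contra hcon
    push Not at hcon
    nlinarith
  have key : ∀ (a b : ℝ) (x : ℂ), 0 ≤ a → 0 ≤ b → a * b ≤ M → ‖x‖ ≤ s →
      ‖(a : ℂ) * x * (b : ℂ)‖ ≤ M * s := by
    intro a b x ha hb hab hx
    rw [norm_mul, norm_mul, Complex.norm_real, Complex.norm_real, Real.norm_of_nonneg ha,
      Real.norm_of_nonneg hb]
    calc a * ‖x‖ * b = (a * b) * ‖x‖ := by ring
      _ ≤ M * s := mul_le_mul hab hx (norm_nonneg _) (by linarith)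
  have hent : (s3D r * k * s3D r⁻¹) i j =
      ((![r, 1, r⁻¹] i : ℝ) : ℂ) * k i j * ((![r⁻¹, 1, r] j : ℝ) : ℂ) := by
    fin_cases i <;> fin_cases j <;>
      simp [s3D, Matrix.mul_apply, Matrix.vecMul, dotProduct, Fin.sum_univ_three]
  rw [hent]
  have hr2' : r * r ≤ M := by rw [← sq]; exact hr2
  have hr3' : r⁻¹ * r⁻¹ ≤ M := by rw [← sq]; exact hr3
  have hr4 : r * r⁻¹ ≤ M := by rw [mul_inv_cancel₀ hr.ne']; exact hM1
  have hr5 : r⁻¹ * r ≤ M := by rw [inv_mul_cancel₀ hr.ne']; exact hM1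
  apply key _ _ _ _ _ _ (hk i j)
  · fin_cases i <;> simp [hr.le]
  · fin_cases j <;> simp [hr.le]
  · fin_cases i <;> fin_cases j <;> simp <;> first | assumption | skip
    all_goals first
      | exact hr4
      | exact hr5
      | skip

/-- **Entries and trace of elements that move a point of the box by a bounded distance.** -/
theorem entries_K (K : Cusp q) {h : ℝ} (hh : 0 < h) (hh1 : h ≤ 1) :
    ∃ C : ℝ, 1 ≤ C ∧ ∀ z ∈ K.Box, h < height z → ∀ g : SU21,
    (∀ i j, ‖mat g i j‖ ≤ C * max (height z) 1 * √(sgm z (act (mat g) z))) ∧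
      ‖(mat g).trace‖ ≤ C * √(sgm z (act (mat g) z)) := by
  obtain ⟨C0, hC0, hfro⟩ := fro_le (K := {o}) isCompact_singleton (by
    intro x hx
    rw [Set.mem_singleton_iff] at hx
    rw [hx]
    exact o_mem)
  have hP := K.hP
  set E : ℝ := ‖K.e1‖ + ‖K.e2‖ with hE
  have hE0 : 0 ≤ E := by positivity
  set CT : ℝ := 1 + E + (E ^ 2 + K.P) with hCT
  have hCT1 : 1 ≤ CT := by
    have : 0 ≤ E ^ 2 := sq_nonneg _
    linarith
  refine ⟨max 1 (9 * CT ^ 2 * √C0 / h), le_max_left _ _, ?_⟩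
  intro z hz hhz g
  have hz0 : 0 < height z := hz.1
  have hzU : z ∈ U := hz.1
  set r : ℝ := √(height z) with hr
  have hr0 : 0 < r := Real.sqrt_pos.2 hz0
  have hr2 : r ^ 2 = height z := Real.sq_sqrt hz0.le
  have hw : 2 * (z.1 + (r : ℂ) ^ 2 / 2).re = -Complex.normSq z.2 := by
    have h1 : (z.1 + (r : ℂ) ^ 2 / 2).re = z.1.re + r ^ 2 / 2 := by
      have : (r : ℂ) ^ 2 / 2 = ((r ^ 2 / 2 : ℝ) : ℂ) := by push_cast; ring
      rw [this, Complex.add_re, Complex.ofReal_re]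
    rw [h1, hr2]
    unfold height
    ring
  set t : SU21 := T z.2 (z.1 + (r : ℂ) ^ 2 / 2) hw with ht
  set d : SU21 := mkSU (s3D r) (s3D_unitary hr0) (s3D_det hr0) with hd
  have haz : act (mat (t * d)) o = z := by
    rw [← act_act _ _ o_mem, hd, mat_mkSU, s3_act_D hr0, ht, mat_T, act_TM]
    apply Prod.ext
    · simp
    · simp
  set k : SU21 := (t * d)⁻¹ * g * (t * d) with hk
  have hko : act (mat k) o = act (mat (t * d)⁻¹) (act (mat g) z) := by
    rw [hk, ← act_act _ _ o_mem, haz, ← act_act _ _ hzU]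
  have hgz : act (mat g) z ∈ U := act_mem_U g hzU
  have hs : sgm o (act (mat k) o) = sgm z (act (mat g) z) := by
    rw [← sgm_act (t * d) o_mem (act_mem_U k o_mem), haz, hko, act_act _ _ hgz, mul_inv_cancel,
      mat_one, act_one]
  set σ := sgm z (act (mat g) z) with hσ
  have hσ1 : 1 ≤ σ := one_le_sgm hzU hgz
  have hkb : ∀ i j, ‖mat k i j‖ ≤ √C0 * √σ := by
    intro i j
    have h1 := hfro o (Set.mem_singleton _) k
    rw [hs] at h1
    have h2 : Complex.normSq (mat k i j) ≤ fro k := by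
      unfold fro
      calc Complex.normSq (mat k i j) ≤ ∑ j', Complex.normSq (mat k i j') :=
            Finset.single_le_sum (fun j' _ => Complex.normSq_nonneg (mat k i j'))
              (Finset.mem_univ j)
        _ ≤ _ := Finset.single_le_sum
            (f := fun i => ∑ j', Complex.normSq (mat k i j'))
            (fun i' _ => Finset.sum_nonneg fun j' _ => Complex.normSq_nonneg (mat k i' j'))
              (Finset.mem_univ i)
    rw [← Real.sqrt_mul hC0.le]
    apply Real.le_sqrt_of_sq_le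
    rw [← Complex.normSq_eq_norm_sq]
    linarith
  have e1 : g = (t * d) * k * (t * d)⁻¹ := by
    rw [hk]
    group
  clear_value k
  have hg : mat g = mat t * (s3D r * mat k * s3D r⁻¹) * mat t⁻¹ := by
    have e2 : mat d⁻¹ = s3D r⁻¹ := by
      rw [mat_inv, hd, mat_mkSU]
      have h : (r : ℂ) ≠ 0 := by exact_mod_cast hr0.ne'
      ext i j
      fin_cases i <;> fin_cases j <;>
        simp [s3D, J, Matrix.mul_apply, Matrix.vecMul, dotProduct, Fin.sum_univ_three]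
    have e3 : mat d = s3D r := rfl
    have e4 : mat g = mat ((t * d) * k * (t * d)⁻¹) := congrArg mat e1
    rw [e4, _root_.mul_inv_rev]
    simp only [mat_mul]
    rw [e2, e3]
    simp only [Matrix.mul_assoc]
  -- the translation
  have hz2 : ‖z.2‖ ≤ E := by
    rw [← coords_snd K z]
    have h1 := hz.2.1
    have h2 := hz.2.2.1
    calc ‖(K.sc z : ℂ) * K.e1 + (K.tc z : ℂ) * K.e2‖ ≤
        ‖(K.sc z : ℂ) * K.e1‖ + ‖(K.tc z : ℂ) * K.e2‖ := norm_add_le _ _
      _ ≤ 1 * ‖K.e1‖ + 1 * ‖K.e2‖ := by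
        rw [norm_mul, norm_mul, Complex.norm_real, Complex.norm_real,
          Real.norm_of_nonneg h1.1, Real.norm_of_nonneg h2.1]
        gcongr
        · exact h1.2.le
        · exact h2.2.le
      _ = E := by rw [hE]; ring
  have hw1 : ‖z.1 + (r : ℂ) ^ 2 / 2‖ ≤ E ^ 2 + K.P := by
    have h1 := Complex.norm_le_abs_re_add_abs_im (z.1 + (r : ℂ) ^ 2 / 2)
    have h2 : (z.1 + (r : ℂ) ^ 2 / 2).re = -Complex.normSq z.2 / 2 := by linarith
    have h3 : (z.1 + (r : ℂ) ^ 2 / 2).im = Cusp.vc z / 2 := by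
      have : (r : ℂ) ^ 2 / 2 = ((r ^ 2 / 2 : ℝ) : ℂ) := by push_cast; ring
      rw [this, Complex.add_im, Complex.ofReal_im]
      simp [Cusp.vc]
    rw [h2, h3] at h1
    have h4 : Complex.normSq z.2 ≤ E ^ 2 := by
      rw [Complex.normSq_eq_norm_sq]
      exact pow_le_pow_left₀ (norm_nonneg _) hz2 2
    have h5 := Complex.normSq_nonneg z.2
    have h6 := hz.2.2.2
    have h7 : |-Complex.normSq z.2 / 2| ≤ E ^ 2 := by
      rw [abs_le]
      constructor <;> linarith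
    have h8 : |Cusp.vc z / 2| ≤ K.P := by
      rw [abs_le]
      constructor <;> linarith [h6.1, h6.2]
    linarith
  have hT : ∀ i j, ‖mat t i j‖ ≤ CT := by
    intro i j
    have hE2 : 0 ≤ E ^ 2 := sq_nonneg _
    rw [ht, mat_T]
    fin_cases i <;> fin_cases j <;> simp [TM]
    all_goals first
      | linarith
      | (have := norm_star z.2; linarith)
  have hT' : ∀ i j, ‖mat t⁻¹ i j‖ ≤ CT := by
    intro i j
    obtain ⟨i', j', e⟩ := inv_entry t i j
    rw [e, norm_star]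
    exact hT i' j'
  set M : ℝ := max (height z) 1 / h with hM
  have hmax1 : 1 ≤ max (height z) 1 := le_max_right _ _
  have hM1 : max (height z) 1 ≤ M := by
    rw [hM, le_div_iff₀ hh]
    nlinarith [hh1]
  have hM2 : (r⁻¹) ^ 2 ≤ M := by
    rw [inv_pow, hr2, hM]
    calc (height z)⁻¹ ≤ h⁻¹ := inv_anti₀ hh hhz.le
      _ = 1 / h := (one_div _).symm
      _ ≤ max (height z) 1 / h := div_le_div_of_nonneg_right hmax1 hh.le
  have hmid := diag_conj (k := mat k) (s := √C0 * √σ) hr0 (hmax1.trans hM1)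
    (by rw [hr2]; exact (le_max_left _ _).trans hM1) hM2 hkb
  have hσ0 : 0 ≤ √σ := Real.sqrt_nonneg _
  have hC00 : 0 ≤ √C0 := Real.sqrt_nonneg _
  constructor
  · intro i j
    rw [hg]
    have h1 := mul_entry (a := 3 * (CT * (M * (√C0 * √σ)))) (b := CT) (by positivity)
      (mul_entry (a := CT) (b := M * (√C0 * √σ)) (by linarith) hT hmid) hT' i j
    refine h1.trans ?_
    have h2 : 9 * CT ^ 2 * √C0 / h ≤ max 1 (9 * CT ^ 2 * √C0 / h) := le_max_right _ _
    calc 3 * (3 * (CT * (M * (√C0 * √σ))) * CT) =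
        (9 * CT ^ 2 * √C0 / h) * max (height z) 1 * √σ := by
          rw [hM]
          field_simp
          ring
      _ ≤ _ := by gcongr
  · have htr : (mat g).trace = (mat k).trace := by
      have e4 : mat g = mat (t * d) * mat k * mat (t * d)⁻¹ := by
        rw [← mat_mul, ← mat_mul]
        exact congrArg mat e1
      rw [e4, Matrix.trace_mul_comm, ← Matrix.mul_assoc, ← mat_mul, inv_mul_cancel, mat_one,
        Matrix.one_mul]
    rw [htr, Matrix.trace_fin_three]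
    have h1 : ‖mat k 0 0 + mat k 1 1 + mat k 2 2‖ ≤ 3 * (√C0 * √σ) := by
      calc _ ≤ ‖mat k 0 0‖ + ‖mat k 1 1‖ + ‖mat k 2 2‖ :=
            (norm_add_le _ _).trans (add_le_add (norm_add_le _ _) le_rfl)
        _ ≤ _ := by linarith [hkb 0 0, hkb 1 1, hkb 2 2]
    refine h1.trans ?_
    have h2 : 9 * CT ^ 2 * √C0 / h ≤ max 1 (9 * CT ^ 2 * √C0 / h) := le_max_right _ _
    have h3 : 3 * √C0 ≤ 9 * CT ^ 2 * √C0 / h := by
      rw [le_div_iff₀ hh]
      have h4 : (1 : ℝ) ≤ CT ^ 2 := by nlinarith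
      have h5 : 3 * √C0 * h ≤ 3 * √C0 := by nlinarith [hh1]
      nlinarith
    calc 3 * (√C0 * √σ) = (3 * √C0) * √σ := by ring
      _ ≤ _ := by
        gcongr
        exact h3.trans h2

/-- The same for one cusp. -/
theorem entries_high (D : CD q) : ∃ C : ℝ, 1 ≤ C ∧ ∀ z ∈ D.K.Box, D.h < height z → ∀ g : SU21,
    (∀ i j, ‖mat g i j‖ ≤ C * max (height z) 1 * √(sgm z (act (mat g) z))) ∧
      ‖(mat g).trace‖ ≤ C * √(sgm z (act (mat g) z)) :=
  entries_K D.K D.hh D.h1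

/-- The same at the point `g₀ w`, `w` in the box: another cusp. -/
theorem entries_g (K : Cusp q) {h : ℝ} (hh : 0 < h) (hh1 : h ≤ 1) (g₀ : SU21) :
    ∃ C : ℝ, 1 ≤ C ∧ ∀ w ∈ K.Box, h < height w → ∀ g : SU21,
    (∀ i j, ‖mat g i j‖ ≤ C * max (height w) 1 *
      √(sgm (act (mat g₀) w) (act (mat g) (act (mat g₀) w)))) ∧
      ‖(mat g).trace‖ ≤ C * √(sgm (act (mat g₀) w) (act (mat g) (act (mat g₀) w))) := by
  obtain ⟨C, hC, hent⟩ := entries_K K hh hh1
  -- a bound for the entries of `g₀` and of its inverse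
  obtain ⟨B, hB0, hB⟩ : ∃ B : ℝ, 1 ≤ B ∧ ∀ i j, ‖mat g₀ i j‖ ≤ B := by
    refine ⟨1 + ∑ i, ∑ j, ‖mat g₀ i j‖, ?_, fun i j => ?_⟩
    · have : 0 ≤ ∑ i, ∑ j, ‖mat g₀ i j‖ :=
        Finset.sum_nonneg fun i _ => Finset.sum_nonneg fun j _ => norm_nonneg _
      linarith
    · have h1 : ‖mat g₀ i j‖ ≤ ∑ j, ‖mat g₀ i j‖ :=
        Finset.single_le_sum (f := fun j => ‖mat g₀ i j‖) (fun j' _ => norm_nonneg _)
          (Finset.mem_univ j)
      have h2 : ∑ j, ‖mat g₀ i j‖ ≤ ∑ i, ∑ j, ‖mat g₀ i j‖ :=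
        Finset.single_le_sum (f := fun i => ∑ j, ‖mat g₀ i j‖)
          (fun i' _ => Finset.sum_nonneg fun j' _ => norm_nonneg _) (Finset.mem_univ i)
      linarith
  have hB' : ∀ i j, ‖mat g₀⁻¹ i j‖ ≤ B := by
    intro i j
    obtain ⟨i', j', e⟩ := inv_entry g₀ i j
    rw [e, norm_star]
    exact hB i' j'
  refine ⟨9 * B ^ 2 * C, ?_, ?_⟩
  · have : 1 ≤ B ^ 2 := one_le_pow₀ hB0
    nlinarith
  intro w hw hhw g
  have hwU : w ∈ U := hw.1
  set k : SU21 := g₀⁻¹ * g * g₀ with hk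
  have hs : sgm w (act (mat k) w) = sgm (act (mat g₀) w) (act (mat g) (act (mat g₀) w)) := by
    rw [← sgm_act g₀ hwU (act_mem_U k hwU), act_act _ _ hwU, act_act _ _ hwU]
    congr 3
    rw [hk]
    group
  obtain ⟨h1, h2⟩ := hent w hw hhw k
  rw [hs] at h1 h2
  set σ := sgm (act (mat g₀) w) (act (mat g) (act (mat g₀) w)) with hσ
  have hg : mat g = mat g₀ * mat k * mat g₀⁻¹ := by
    rw [← mat_mul, ← mat_mul]
    congr 1
    rw [hk]
    group
  have hm : 1 ≤ max (height w) 1 := le_max_right _ _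
  have hσ0 : 0 ≤ √σ := Real.sqrt_nonneg _
  constructor
  · intro i j
    rw [hg]
    have h3 := mul_entry (a := 3 * (B * (C * max (height w) 1 * √σ))) (b := B) (by positivity)
      (mul_entry (a := B) (b := C * max (height w) 1 * √σ) (by linarith) hB h1) hB' i j
    refine h3.trans (le_of_eq ?_)
    ring
  · have htr : (mat g).trace = (mat k).trace := by
      rw [hg, Matrix.trace_mul_comm, ← Matrix.mul_assoc, ← mat_mul, inv_mul_cancel, mat_one,
        Matrix.one_mul]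
    rw [htr]
    refine h2.trans ?_
    have h4 : C ≤ 9 * B ^ 2 * C := by
      have : 1 ≤ B ^ 2 := one_le_pow₀ hB0
      nlinarith
    gcongr

end

end Pool.Agent.Lib.H43T
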