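import Pool.Agent.Lib.H43T.Box
import Pool.Agent.Lib.H56M.W3

/-!
# At least half of the mass of a cusp form lies below height `A n²` (several cusps)
-/

namespace Pool.Agent.Lib.H43T

open Matrix hiding J
open MeasureTheory Topology Filter
open Pool.Agent.Lib.H56.Picard hiding O Gam mem_Gam star_mem_O T_mem sg_mem
open Pool.Agent.Lib.H56.Gen
open Pool.Agent.Lib.H56M
open scoped ENNReal

noncomputable section

variable {q : QD}

/-- Vanishing constant terms at all cusps at level `n`. -/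
def CuspM (D : MC q) (n : ℕ) (f : ℂ × ℂ → ℂ) : Prop :=
  ∀ i, ∀ γ : Gam q, ∀ u : ℝ, 0 < u → ∫ s in (0:ℝ)..1, ∫ t in (0:ℝ)..1,
    ∫ v in (0:ℝ)..(n * D.K.P),
      f (act (mat (γ.1 * D.g i)) (PsiE (n * D.K.e1) (n * D.K.e2) s t v u)) = 0

lemma one_le_top (D : MC q) : 1 ≤ top D := by
  have h1 := D.hh
  have h2 := D.h1
  have h3 : (1 : ℝ) ≤ D.N := by exact_mod_cast D.hN
  unfold top
  rw [le_div_iff₀ h1]
  nlinarith

/-- The integral against the weight in the coordinates at the cusps. -/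
lemma int_om (D : MC q) {Φ : X → ℝ≥0∞} (hΦ : Measurable Φ) :
    ∫⁻ z, H56M.om D z * Φ z ∂mu = ∑ i, ∫⁻ w in {w : X | w.1 ∈ D.K.Box},
      above D.h (height w.1) * ((cnt D (D.g i • w))⁻¹ * Φ (D.g i • w)) ∂mu := by
  have hBox : MeasurableSet {w : X | w.1 ∈ D.K.Box} :=
    (measurableSet_Box D.K).preimage measurable_subtype_coe
  have m1 : ∀ i, Measurable fun z : X => bxi D i z * (cnt D z)⁻¹ * Φ z := fun i =>
    ((measurable_bxi D i).mul (measurable_cnt D).inv).mul hΦ
  have e1 : ∫⁻ z, H56M.om D z * Φ z ∂mu =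
      ∫⁻ z, ∑ i, bxi D i z * (cnt D z)⁻¹ * Φ z ∂mu := by
    refine lintegral_congr fun z => ?_
    rw [H56M.om_eq, Finset.sum_mul]
  rw [e1, lintegral_finsetSum _ fun i _ => m1 i]
  refine Finset.sum_congr rfl fun i _ => ?_
  rw [← (measurePreserving_smul (D.g i) mu).lintegral_comp (m1 i), ← lintegral_indicator hBox]
  refine lintegral_congr fun w => ?_
  unfold bxi bx
  rw [inv_smul_smul]
  by_cases hw : w.1 ∈ D.K.Box
  · rw [if_pos hw, one_mul, Set.indicator_of_mem (show w ∈ {w : X | w.1 ∈ D.K.Box} from hw),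
      mul_assoc]
  · rw [if_neg hw, Set.indicator_of_notMem (show w ∉ {w : X | w.1 ∈ D.K.Box} from hw)]
    simp

lemma above_mul {a b u : ℝ} (h : a ≤ b) : above a u * above b u = above b u := by
  rcases le_or_gt u b with h1 | h1
  · rw [show above b u = 0 from Set.indicator_of_notMem (show u ∉ Set.Ioi b from not_lt.2 h1) _,
      mul_zero]
  · rw [show above b u = 1 from Set.indicator_of_mem (show u ∈ Set.Ioi b from h1) _,
      show above a u = 1 from Set.indicator_of_mem (show u ∈ Set.Ioi a from lt_of_le_of_lt h h1) _,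
      mul_one]

/-- At least half of the mass lies below height `A n²`. -/
theorem mass_low_M (D : MC q) (Λ : ℝ) : ∃ A : ℝ, 1 ≤ A ∧ ∀ (n : ℕ), n ≠ 0 →
    ∀ (f : ℂ × ℂ → ℂ) (l : ℝ), H56M.Good D (GamN q (n : ℂ)) f l → CuspM D n f → l ≤ Λ →
    ∫⁻ z, H56M.om D z * PhiS (GamN q (n : ℂ)) f z ∂mu ≤
      2 * ∑ i, ∫⁻ w in {w : X | w.1 ∈ D.K.Box ∧ D.h < height w.1 ∧ height w.1 ≤ A * n ^ 2},
        PhiS (GamN q (n : ℂ)) f (D.g i • w) ∂mu := by
  obtain ⟨k0, hk0, hk⟩ := exists_kk D.K
  have hP := D.K.hP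
  have hpi := Real.pi_pos
  set c := min ((2 * Real.pi / D.K.P) ^ 2) (4 * Real.pi ^ 2 * k0) with hc
  have hc0 : 0 < c := lt_min (by positivity) (by positivity)
  have hT1 := one_le_top D
  refine ⟨max (top D) (2 * Λ / c), hT1.trans (le_max_left _ _), ?_⟩
  intro n hn f l hf hcus hl
  set A := max (top D) (2 * Λ / c) with hA
  have hn' : (0 : ℝ) < n := Nat.cast_pos.2 (Nat.pos_of_ne_zero hn)
  have hn1 : (1 : ℝ) ≤ n := by exact_mod_cast Nat.one_le_iff_ne_zero.2 hn
  have hn2 : (1 : ℝ) ≤ (n : ℝ) ^ 2 := by nlinarith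
  have hAT : top D ≤ A := le_max_left _ _
  have hA1 : 1 ≤ A := hT1.trans hAT
  set B := A * (n : ℝ) ^ 2 with hB
  have hBT : top D ≤ B := by
    rw [hB]
    nlinarith
  have hB1 : 1 ≤ B := hT1.trans hBT
  have hhB : D.h ≤ B := D.h1.trans hB1
  have hBox : MeasurableSet {w : X | w.1 ∈ D.K.Box} :=
    (measurableSet_Box D.K).preimage measurable_subtype_coe
  have hGfin := GamN_finiteIndex (q := q) (p := (n : ℂ)) (natCast_mem (OO q) n)
    (Nat.cast_ne_zero.2 hn)
  set G := GamN q (n : ℂ) with hG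
  have hfinq : Finite (Gam q ⧸ G) := Subgroup.finite_quotient_of_finiteIndex
  by_cases hne : ∃ z ∈ U, f z ≠ 0
  swap
  · push Not at hne
    have h0 : ∀ z : X, PhiS G f z = 0 := by
      intro z
      unfold PhiS
      rw [ENNReal.tsum_eq_zero]
      intro x
      have h1 : conj G f x z.1 = 0 := by
        unfold conj
        exact hne _ (act_mem_U _ z.2)
      rw [h1]
      simp
    simp only [h0, mul_zero, lintegral_zero]
    exact zero_le
  have mP : Measurable (PhiS G f) := measurable_PhiS hf.smooth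
  have mE : Measurable (EnS G f) := measurable_EnS hf.smooth
  have mh : Measurable fun z : X => height z.1 := measurable_height
  choose κ hκ1 hκt hκ using fun i => cnt_high D i
  set I := ∫⁻ z, H56M.om D z * PhiS G f z ∂mu with hI
  set E := ∫⁻ z, H56M.om D z * EnS G f z ∂mu with hE
  have hIt : I ≠ ⊤ := by
    rw [hI, ← H56M.lintegral_PhiS D G hf.smooth]
    exact hf.L2
  have hEI : E ≤ ENNReal.ofReal l * I := by
    have := (H56M.energy_level D hf.smooth hf.inv hf.eig hf.L2 hne).2
    rwa [Complex.ofReal_re] at this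
  -- the high parts
  set a : Fin D.r → ℝ≥0∞ := fun i => ∫⁻ w in {w : X | w.1 ∈ D.K.Box},
    above B (height w.1) * PhiS G f (D.g i • w) ∂mu with ha
  set b : Fin D.r → ℝ≥0∞ := fun i => ∫⁻ w in {w : X | w.1 ∈ D.K.Box},
    above B (height w.1) * EnS G f (D.g i • w) ∂mu with hb
  set Lo := ∑ i, ∫⁻ w in {w : X | w.1 ∈ D.K.Box ∧ D.h < height w.1 ∧ height w.1 ≤ B},
        PhiS G f (D.g i • w) ∂mu with hLo
  have msm : ∀ i, Measurable fun w : X => D.g i • w := fun i => measurable_const_smul (D.g i)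
  -- general facts on the weight above `B`
  have hw1 : ∀ (i : Fin D.r) (Φ : X → ℝ≥0∞) (w : X), w.1 ∈ D.K.Box →
      above B (height w.1) * ((κ i)⁻¹ * Φ (D.g i • w)) ≤
      above D.h (height w.1) * ((cnt D (D.g i • w))⁻¹ * Φ (D.g i • w)) := by
    intro i Φ w hw
    rcases le_or_gt (height w.1) B with h1 | h1
    · rw [show above B (height w.1) = 0 from
        Set.indicator_of_notMem (show height w.1 ∉ Set.Ioi B from not_lt.2 h1) _, zero_mul]
      exact zero_le
    · rw [show above B (height w.1) = 1 from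
        Set.indicator_of_mem (show height w.1 ∈ Set.Ioi B from h1) _,
        show above D.h (height w.1) = 1 from
        Set.indicator_of_mem (show height w.1 ∈ Set.Ioi D.h from lt_of_le_of_lt hhB h1) _,
        hκ i w hw (lt_of_le_of_lt hBT h1)]
  have hhigh : ∀ (i : Fin D.r) {Φ : X → ℝ≥0∞}, Measurable Φ →
      (κ i)⁻¹ * ∫⁻ w in {w : X | w.1 ∈ D.K.Box}, above B (height w.1) * Φ (D.g i • w) ∂mu ≤
      ∫⁻ w in {w : X | w.1 ∈ D.K.Box},
        above D.h (height w.1) * ((cnt D (D.g i • w))⁻¹ * Φ (D.g i • w)) ∂mu := by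
    intro i Φ hΦ
    have m3 : Measurable fun w : X => above B (height w.1) * Φ (D.g i • w) :=
      ((measurable_above B).comp mh).mul (hΦ.comp (msm i))
    rw [← lintegral_const_mul _ m3]
    refine setLIntegral_mono' hBox fun w hw => ?_
    refine le_trans (le_of_eq ?_) (hw1 i Φ w hw)
    ring
  have hat : ∀ i, a i ≠ ⊤ := by
    intro i hi
    have h1 := hhigh i mP
    have h2 : (κ i)⁻¹ * a i ≤ I := by
      refine h1.trans ?_
      rw [hI, int_om D mP]
      exact Finset.single_le_sum (f := fun i => ∫⁻ w in {w : X | w.1 ∈ D.K.Box},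
        above D.h (height w.1) * ((cnt D (D.g i • w))⁻¹ * PhiS G f (D.g i • w)) ∂mu)
        (fun _ _ => zero_le) (Finset.mem_univ i)
    rw [hi, ENNReal.mul_top (ENNReal.inv_ne_zero.2 (hκt i))] at h2
    exact hIt (top_le_iff.1 h2)
  have hbox : ∀ i, ENNReal.ofReal (c * B / n ^ 2) * a i ≤ b i := fun i =>
    box_ineq (D.tr i) (D.lev i) hn hf.smooth hf.inv (hcus i) hB1 (min_le_left _ _) hc0.le hk0.le
      hk (min_le_right _ _) (hat i)
  have ecA : c * B / n ^ 2 = c * A := by
    rw [hB]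
    field_simp
  rw [ecA] at hbox
  set Hi := ∑ i, (κ i)⁻¹ * a i with hHi
  have hHE : ENNReal.ofReal (c * A) * Hi ≤ E := by
    rw [hE, int_om D mE, hHi, Finset.mul_sum]
    refine Finset.sum_le_sum fun i _ => ?_
    refine le_trans ?_ (hhigh i mE)
    calc ENNReal.ofReal (c * A) * ((κ i)⁻¹ * a i) = (κ i)⁻¹ * (ENNReal.ofReal (c * A) * a i) := by
          ring
      _ ≤ (κ i)⁻¹ * b i := by gcongr; exact hbox i
  -- splitting
  have hsplit : I ≤ Lo + Hi := by
    rw [hI, int_om D mP, hLo, hHi, ← Finset.sum_add_distrib]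
    refine Finset.sum_le_sum fun i _ => ?_
    have hS : MeasurableSet {w : X | w.1 ∈ D.K.Box ∧ D.h < height w.1 ∧ height w.1 ≤ B} :=
      hBox.inter ((measurableSet_lt measurable_const mh).inter
        (measurableSet_le mh measurable_const))
    have m1 : Measurable ({w : X | w.1 ∈ D.K.Box ∧ D.h < height w.1 ∧ height w.1 ≤ B}.indicator
      fun w => PhiS G f (D.g i • w)) := (mP.comp (msm i)).indicator hS
    have m2 : Measurable ({w : X | w.1 ∈ D.K.Box}.indicator
      fun w => above B (height w.1) * PhiS G f (D.g i • w)) :=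
      (((measurable_above B).comp mh).mul (mP.comp (msm i))).indicator hBox
    simp only [ha]
    rw [← lintegral_indicator hS, ← lintegral_indicator hBox, ← lintegral_indicator hBox,
      ← lintegral_const_mul _ m2, ← lintegral_add_left m1]
    refine lintegral_mono fun w => ?_
    by_cases hw : w.1 ∈ D.K.Box
    · rw [Set.indicator_of_mem (show w ∈ {w : X | w.1 ∈ D.K.Box} from hw),
        Set.indicator_of_mem (show w ∈ {w : X | w.1 ∈ D.K.Box} from hw)]
      rcases le_or_gt (height w.1) D.h with h1 | h1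
      · rw [show above D.h (height w.1) = 0 from
          Set.indicator_of_notMem (show height w.1 ∉ Set.Ioi D.h from not_lt.2 h1) _, zero_mul]
        exact zero_le
      rcases le_or_gt (height w.1) B with h2 | h2
      · rw [Set.indicator_of_mem (show w ∈ {w : X | w.1 ∈ D.K.Box ∧ D.h < height w.1 ∧
          height w.1 ≤ B} from ⟨hw, h1, h2⟩), show above D.h (height w.1) = 1 from
          Set.indicator_of_mem (show height w.1 ∈ Set.Ioi D.h from h1) _, one_mul]
        refine le_trans ?_ le_self_add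
        have h3 : (cnt D (D.g i • w))⁻¹ ≤ 1 := ENNReal.inv_le_one.2 (one_le_cnt D _)
        calc (cnt D (D.g i • w))⁻¹ * PhiS G f (D.g i • w) ≤ 1 * PhiS G f (D.g i • w) := by gcongr
          _ = _ := one_mul _
      · rw [show above D.h (height w.1) = 1 from
          Set.indicator_of_mem (show height w.1 ∈ Set.Ioi D.h from h1) _, one_mul,
          show above B (height w.1) = 1 from
          Set.indicator_of_mem (show height w.1 ∈ Set.Ioi B from h2) _, one_mul,
          hκ i w hw (lt_of_le_of_lt hBT h2)]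
        exact le_add_self
    · rw [Set.indicator_of_notMem (show w ∉ {w : X | w.1 ∈ D.K.Box} from hw)]
      exact zero_le
  have hHiI : Hi ≤ I := by
    rw [hI, int_om D mP, hHi]
    exact Finset.sum_le_sum fun i _ => hhigh i mP
  have hHt : Hi ≠ ⊤ := ne_top_of_le_ne_top hIt hHiI
  have hcA : 2 * Λ ≤ c * A := by
    have h2 : 2 * Λ / c ≤ A := le_max_right _ _
    rw [div_le_iff₀ hc0] at h2
    linarith
  have hcA0 : 0 < c * A := by positivity
  have h2 : ENNReal.ofReal (c * A) * (2 * Hi) ≤ ENNReal.ofReal (c * A) * I := by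
    calc ENNReal.ofReal (c * A) * (2 * Hi) = 2 * (ENNReal.ofReal (c * A) * Hi) := by ring
      _ ≤ 2 * (ENNReal.ofReal l * I) := mul_le_mul' le_rfl (hHE.trans hEI)
      _ = ENNReal.ofReal (2 * l) * I := by
        rw [ENNReal.ofReal_mul (by norm_num), ← mul_assoc]
        simp
      _ ≤ ENNReal.ofReal (c * A) * I :=
        mul_le_mul' (ENNReal.ofReal_le_ofReal (by linarith)) le_rfl
  have h3 : 2 * Hi ≤ I := (ENNReal.mul_le_mul_iff_right (by
    rw [ENNReal.ofReal_ne_zero_iff]
    exact hcA0) ENNReal.ofReal_ne_top).1 h2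
  have h4 : Hi + Hi ≤ Lo + Hi := by
    rw [← two_mul]
    exact h3.trans hsplit
  have h5 : Hi ≤ Lo := (ENNReal.add_le_add_iff_right hHt).1 h4
  calc I ≤ Lo + Hi := hsplit
    _ ≤ Lo + Lo := by gcongr
    _ = 2 * Lo := (two_mul _).symm

end

end Pool.Agent.Lib.H43T
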