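import Pool.Agent.Lib.H56D.D3

/-!
# Small radius kernels: a lower bound for all eigenvalues in a bounded interval

`L(L-1) J'' - (7L-3) J' + (15 + lam) J = 0` on `L > 1`, `J, J' → 0` at `1+`, `J/(L-1)^5 → c > 0`;
for `0 ≤ lam ≤ Λ` and `1 < L ≤ 1 + 3/(8(|Λ|+1))` we have `J ≥ (c/2) (L-1)^5`.
-/

namespace Pool.Agent.Lib.H43T

open Matrix hiding J
open MeasureTheory Topology Filter
open Pool.Agent.Lib.H56.Picard hiding O Gam mem_Gam star_mem_O T_mem sg_mem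
open Pool.Agent.Lib.H56.Gen
open Pool.Agent.Lib.H56D
open scoped ENNReal

noncomputable section

/-- The hypotheses on `J` and its derivatives `J1`, `J2`. -/
structure OdeL (lam : ℝ) (J J1 J2 : ℝ → ℝ) : Prop where
  d0 : ∀ L : ℝ, 1 < L → HasDerivAt J (J1 L) L
  d1 : ∀ L : ℝ, 1 < L → HasDerivAt J1 (J2 L) L
  ode : ∀ L : ℝ, 1 < L → L * (L - 1) * J2 L - (7 * L - 3) * J1 L + (15 + lam) * J L = 0
  l0 : Tendsto J (𝓝[>] 1) (𝓝 0)
  l1 : Tendsto J1 (𝓝[>] 1) (𝓝 0)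

/-- The Wronskian type function. -/
def WL (J J1 : ℝ → ℝ) (L : ℝ) : ℝ := L⁻¹ ^ 3 * ((L - 1) * J1 L - 5 * J L)

theorem WL_deriv {lam : ℝ} {J J1 J2 : ℝ → ℝ} (h : OdeL lam J J1 J2) {L : ℝ} (hL : 1 < L) :
    HasDerivAt (WL J J1) (-(lam * (L⁻¹ ^ 4 * J L))) L := by
  have hL0 : L ≠ 0 := by linarith
  have h0 := h.d0 L hL
  have h1 := h.d1 L hL
  have hode := h.ode L hL
  have e0 := (hasDerivAt_inv hL0).pow 3
  have e1 : HasDerivAt (fun L : ℝ => L - 1) 1 L := (hasDerivAt_id L).sub_const 1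
  have e2 : HasDerivAt (fun L : ℝ => (L - 1) * J1 L) (1 * J1 L + (L - 1) * J2 L) L := e1.mul h1
  have e6 : HasDerivAt (fun L : ℝ => 5 * J L) (5 * J1 L) L := h0.const_mul 5
  have e7 := e0.mul (e2.sub e6)
  refine e7.congr_deriv ?_
  simp only [Pi.sub_apply, Pi.pow_apply, Nat.cast_ofNat, show (3 : ℕ) - 1 = 2 from rfl, inv_pow]
  field_simp
  linear_combination hode

theorem WL_lim {lam : ℝ} {J J1 J2 : ℝ → ℝ} (h : OdeL lam J J1 J2) :
    Tendsto (WL J J1) (𝓝[>] 1) (𝓝 0) := by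
  have hid : Tendsto (fun L : ℝ => L) (𝓝[>] (1 : ℝ)) (𝓝 1) :=
    tendsto_nhdsWithin_of_tendsto_nhds tendsto_id
  have h1 : Tendsto (fun L : ℝ => L⁻¹ ^ 3) (𝓝[>] (1 : ℝ)) (𝓝 (1⁻¹ ^ 3)) :=
    (hid.inv₀ one_ne_zero).pow 3
  have h2 : Tendsto (fun L : ℝ => L - 1) (𝓝[>] (1 : ℝ)) (𝓝 (1 - 1)) := hid.sub_const 1
  have h4 := h1.mul ((h2.mul h.l1).sub (h.l0.const_mul 5))
  have e : (1 : ℝ)⁻¹ ^ 3 * ((1 - 1) * 0 - 5 * 0) = 0 := by norm_num
  rw [e] at h4
  exact h4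

theorem yy_deriv {lam : ℝ} {J J1 J2 : ℝ → ℝ} (h : OdeL lam J J1 J2) {L : ℝ} (hL : 1 < L) :
    HasDerivAt (fun L => J L / (L - 1) ^ 5) (L ^ 3 / (L - 1) ^ 6 * WL J J1 L) L := by
  have hL0 : L ≠ 0 := by linarith
  have hL1 : L - 1 ≠ 0 := by
    have : 0 < L - 1 := by linarith
    exact this.ne'
  have e1 : HasDerivAt (fun L : ℝ => L - 1) 1 L := (hasDerivAt_id L).sub_const 1
  have e2 : HasDerivAt (fun L : ℝ => (L - 1) ^ 5) (((5 : ℕ) : ℝ) * (L - 1) ^ 4 * 1) L := e1.pow 5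
  have e3 := (h.d0 L hL).div e2 (pow_ne_zero 5 hL1)
  refine e3.congr_deriv ?_
  unfold WL
  field_simp
  push_cast
  ring

/-- A function with nonnegative derivative and limit `c` at `1+` is at least `c`. -/
theorem ge_of_lim {F F' : ℝ → ℝ} {R c : ℝ} (hF : ∀ L, 1 < L → L ≤ R → HasDerivAt F (F' L) L)
    (h0 : ∀ L, 1 < L → L < R → 0 ≤ F' L) (hc : Tendsto F (𝓝[>] 1) (𝓝 c)) (hR : 1 < R) :
    c ≤ F R := by
  have hmono : MonotoneOn F (Set.Ioc 1 R) := by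
    apply monotoneOn_of_deriv_nonneg (convex_Ioc 1 R)
    · intro x hx
      exact (hF x hx.1 hx.2).continuousAt.continuousWithinAt
    · intro x hx
      rw [interior_Ioc] at hx
      exact (hF x hx.1 hx.2.le).differentiableAt.differentiableWithinAt
    · intro x hx
      rw [interior_Ioc] at hx
      rw [(hF x hx.1 hx.2.le).deriv]
      exact h0 x hx.1 hx.2
  refine le_of_tendsto hc ?_
  filter_upwards [Ioo_mem_nhdsGT hR] with s hs
  exact hmono ⟨hs.1, hs.2.le⟩ ⟨hR, le_refl R⟩ hs.2.le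

/-- The lower bound as long as `J ≥ 0`. -/
theorem low_step {lam : ℝ} {J J1 J2 : ℝ → ℝ} (h : OdeL lam J J1 J2) (hl : 0 ≤ lam) {c : ℝ}
    (hc0 : 0 < c) (hc : Tendsto (fun L => J L / (L - 1) ^ 5) (𝓝[>] 1) (𝓝 c)) {R : ℝ} (hR : 1 < R)
    (hR2 : R ≤ 2) (hJ : ∀ L, 1 < L → L < R → 0 ≤ J L) :
    c - 4 / 3 * lam * c * (R - 1) ≤ J R / (R - 1) ^ 5 := by
  have hinv : ∀ x : ℝ, 1 < x → 0 ≤ x⁻¹ ^ 4 ∧ x⁻¹ ^ 4 ≤ 1 := by
    intro x hx
    have h1 : 0 ≤ x⁻¹ := inv_nonneg.2 (by linarith)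
    have h2 : x⁻¹ ≤ 1 := inv_le_one_of_one_le₀ hx.le
    exact ⟨pow_nonneg h1 4, pow_le_one₀ h1 h2⟩
  -- `W ≤ 0`
  have hW : ∀ L, 1 < L → L < R → WL J J1 L ≤ 0 := by
    intro L hL hLR
    have h1 := ge_of_lim (F := fun x => -WL J J1 x) (F' := fun x => -(-(lam * (x⁻¹ ^ 4 * J x))))
      (R := L) (c := 0) (fun x hx _ => (WL_deriv h hx).neg) (fun x hx hxL => by
        rw [neg_neg]
        exact mul_nonneg hl (mul_nonneg (hinv x hx).1 (hJ x hx (hxL.trans hLR))))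
      (by
        have := (WL_lim h).neg
        rwa [neg_zero] at this) hL
    linarith
  -- `y ≤ c`
  have hy : ∀ L, 1 < L → L < R → J L / (L - 1) ^ 5 ≤ c := by
    intro L hL hLR
    have h1 := ge_of_lim (F := fun x => -(J x / (x - 1) ^ 5))
      (F' := fun x => -(x ^ 3 / (x - 1) ^ 6 * WL J J1 x))
      (R := L) (c := -c) (fun x hx _ => (yy_deriv h hx).neg) (fun x hx hxL => by
        have h2 := hW x hx (hxL.trans hLR)
        have h3 : 0 ≤ x ^ 3 / (x - 1) ^ 6 := by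
          have : 0 < x - 1 := by linarith
          positivity
        nlinarith)
      hc.neg hL
    linarith
  -- `W ≥ -lam c (L-1)^6/6`
  have hW2 : ∀ L, 1 < L → L < R → -(lam * c * (L - 1) ^ 6 / 6) ≤ WL J J1 L := by
    intro L hL hLR
    have hd : ∀ x : ℝ, 1 < x → HasDerivAt (fun x => WL J J1 x + lam * c / 6 * (x - 1) ^ 6)
        (-(lam * (x⁻¹ ^ 4 * J x)) + lam * c / 6 * (((6 : ℕ) : ℝ) * (x - 1) ^ 5 * 1)) x := by
      intro x hx
      have e1 : HasDerivAt (fun L : ℝ => L - 1) 1 x := (hasDerivAt_id x).sub_const 1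
      exact (WL_deriv h hx).add ((e1.pow 6).const_mul _)
    have h1 := ge_of_lim (R := L) (c := 0) (fun x hx _ => hd x hx) (fun x hx hxL => by
        have h2 := hy x hx (hxL.trans hLR)
        have h3 : 0 < (x - 1) ^ 5 := pow_pos (by linarith) _
        rw [div_le_iff₀ h3] at h2
        have h4 := hJ x hx (hxL.trans hLR)
        have h5 := hinv x hx
        have h6 : x⁻¹ ^ 4 * J x ≤ c * (x - 1) ^ 5 := by
          calc x⁻¹ ^ 4 * J x ≤ 1 * J x := mul_le_mul_of_nonneg_right h5.2 h4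
            _ ≤ c * (x - 1) ^ 5 := by rw [one_mul]; exact h2
        have h7 := mul_le_mul_of_nonneg_left h6 hl
        push_cast
        nlinarith)
      (by
        have hid : Tendsto (fun L : ℝ => L) (𝓝[>] (1 : ℝ)) (𝓝 1) :=
          tendsto_nhdsWithin_of_tendsto_nhds tendsto_id
        have h2 : Tendsto (fun L : ℝ => (L - 1) ^ 6) (𝓝[>] (1 : ℝ)) (𝓝 ((1 - 1) ^ 6)) :=
          (hid.sub_const 1).pow 6
        have h3 := (WL_lim h).add (h2.const_mul (lam * c / 6))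
        have e : (0 : ℝ) + lam * c / 6 * (1 - 1) ^ 6 = 0 := by norm_num
        rwa [e] at h3) hL
    linarith
  -- conclusion
  have hd : ∀ x : ℝ, 1 < x → HasDerivAt (fun x => J x / (x - 1) ^ 5 + 4 / 3 * lam * c * (x - 1))
      (x ^ 3 / (x - 1) ^ 6 * WL J J1 x + 4 / 3 * lam * c * 1) x := by
    intro x hx
    have e1 : HasDerivAt (fun L : ℝ => L - 1) 1 x := (hasDerivAt_id x).sub_const 1
    exact (yy_deriv h hx).add (e1.const_mul _)
  have h1 := ge_of_lim (R := R) (c := c) (fun x hx _ => hd x hx) (fun x hx hxR => by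
      have h2 := hW2 x hx hxR
      have h3 : 0 < (x - 1) ^ 6 := pow_pos (by linarith) _
      have h4 : 0 ≤ x ^ 3 / (x - 1) ^ 6 := by positivity
      have h5 : x ^ 3 / (x - 1) ^ 6 * (-(lam * c * (x - 1) ^ 6 / 6)) ≤
          x ^ 3 / (x - 1) ^ 6 * WL J J1 x := mul_le_mul_of_nonneg_left h2 h4
      have hx1 : x - 1 ≠ 0 := by
        have : 0 < x - 1 := by linarith
        exact this.ne'
      have h6 : x ^ 3 / (x - 1) ^ 6 * (-(lam * c * (x - 1) ^ 6 / 6)) = -(x ^ 3 * (lam * c) / 6) := by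
        field_simp
      have h7 : x ^ 3 ≤ 8 := by
        have : x ≤ 2 := hxR.le.trans hR2
        have h8 : x ^ 3 ≤ 2 ^ 3 := pow_le_pow_left₀ (by linarith) this 3
        linarith
      have h8 : 0 ≤ lam * c := by positivity
      nlinarith)
    (by
      have hid : Tendsto (fun L : ℝ => L) (𝓝[>] (1 : ℝ)) (𝓝 1) :=
        tendsto_nhdsWithin_of_tendsto_nhds tendsto_id
      have h2 : Tendsto (fun L : ℝ => L - 1) (𝓝[>] (1 : ℝ)) (𝓝 (1 - 1)) := hid.sub_const 1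
      have h3 := hc.add (h2.const_mul (4 / 3 * lam * c))
      have e : c + 4 / 3 * lam * c * (1 - 1) = c := by ring
      rwa [e] at h3) hR
  linarith

/-- **The lower bound for small radii.** -/
theorem odeL_lower {lam Λ : ℝ} {J J1 J2 : ℝ → ℝ} (h : OdeL lam J J1 J2) (hl : 0 ≤ lam)
    (hΛ : lam ≤ Λ) {c : ℝ} (hc0 : 0 < c)
    (hc : Tendsto (fun L => J L / (L - 1) ^ 5) (𝓝[>] 1) (𝓝 c)) {L : ℝ} (hL : 1 < L)
    (hL2 : L ≤ 1 + 3 / (8 * (|Λ| + 1))) : c / 2 * (L - 1) ^ 5 ≤ J L := by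
  have hA : 0 ≤ |Λ| := abs_nonneg _
  have hδ : ∀ x : ℝ, 1 < x → x ≤ L → x ≤ 2 ∧ 4 / 3 * lam * c * (x - 1) ≤ c / 2 := by
    intro x hx hxL
    have h1 : (x - 1) * (8 * (|Λ| + 1)) ≤ 3 := by
      have h2 : x - 1 ≤ 3 / (8 * (|Λ| + 1)) := by linarith
      rwa [le_div_iff₀ (by positivity)] at h2
    constructor
    · nlinarith
    · have h3 : lam ≤ |Λ| + 1 := by
        have := le_abs_self Λ
        linarith
      have h4 : lam * (x - 1) ≤ 3 / 8 := by nlinarith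
      nlinarith
  have hpos : ∀ x : ℝ, 1 < x → x ≤ L → 0 < J x := by
    intro x₀ hx₀ hx₀L
    by_contra hcon
    push Not at hcon
    have h1 : ∀ᶠ s in 𝓝[>] (1 : ℝ), 0 < J s := by
      have h2 : ∀ᶠ s in 𝓝[>] (1 : ℝ), 0 < J s / (s - 1) ^ 5 := hc.eventually (lt_mem_nhds hc0)
      filter_upwards [h2, self_mem_nhdsWithin] with s hs hs1
      have h3 : 0 < (s - 1) ^ 5 := pow_pos (by linarith [Set.mem_Ioi.1 hs1]) _
      have h4 := mul_pos hs h3
      rwa [div_mul_cancel₀ _ h3.ne'] at h4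
    obtain ⟨b, hb1, hb⟩ := mem_nhdsGT_iff_exists_Ioo_subset.1 h1
    have hb1' : 1 < b := hb1
    set b' := min ((1 + b) / 2) x₀ with hb'
    have hb'1 : 1 < b' := lt_min (by linarith) hx₀
    have hb'b : b' < b := lt_of_le_of_lt (min_le_left _ _) (by linarith)
    have hb'x : b' ≤ x₀ := min_le_right _ _
    have hcont : ContinuousOn J (Set.Icc b' x₀) := fun x hx =>
      (h.d0 x (lt_of_lt_of_le hb'1 hx.1)).continuousAt.continuousWithinAt
    have hcomp : IsCompact (Set.Icc b' x₀ ∩ J ⁻¹' Set.Iic 0) :=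
      isCompact_Icc.of_isClosed_subset
        (hcont.preimage_isClosed_of_isClosed isClosed_Icc isClosed_Iic) Set.inter_subset_left
    obtain ⟨m, hm, hmin⟩ := hcomp.exists_isLeast ⟨x₀, ⟨hb'x, le_refl _⟩, hcon⟩
    have hm1 : 1 < m := lt_of_lt_of_le hb'1 hm.1.1
    have hmL : m ≤ L := hm.1.2.trans hx₀L
    have hJpos : ∀ y, 1 < y → y < m → 0 ≤ J y := by
      intro y hy1 hym
      by_cases hyb : y < b
      · exact (hb ⟨hy1, hyb⟩ : 0 < J y).le
      · by_contra hcon2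
        push Not at hcon2 hyb
        have h3 := hmin ⟨⟨hb'b.le.trans hyb, (hym.trans_le hm.1.2).le⟩, hcon2.le⟩
        exact absurd hym (not_lt.2 h3)
    obtain ⟨g1, g2⟩ := hδ m hm1 hmL
    have h4 := low_step h hl hc0 hc hm1 g1 hJpos
    have h5 : J m ≤ 0 := hm.2
    have h7 : 0 < (m - 1) ^ 5 := pow_pos (by linarith) _
    have h8 : J m / (m - 1) ^ 5 ≤ 0 := div_nonpos_of_nonpos_of_nonneg h5 h7.le
    linarith
  obtain ⟨g1, g2⟩ := hδ L hL le_rfl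
  have h1 := low_step h hl hc0 hc hL g1 fun y hy hyL => (hpos y hy hyL.le).le
  have h7 : 0 < (L - 1) ^ 5 := pow_pos (by linarith) _
  have h2 : c / 2 ≤ J L / (L - 1) ^ 5 := by linarith
  rwa [le_div_iff₀ h7] at h2

/-- `JJ 3 g x` satisfies the equation. -/
theorem JJ_odeL {g : ℂ × ℂ → ℝ} {lam : ℝ} (hg : ContDiffOn ℝ 2 g U)
    (hlap : ∀ z ∈ U, lapR g z = -(lam * g z)) {x : ℂ × ℂ} (hx : x ∈ U) :
    OdeL lam (JJ 3 g x) (fun L => 3 * JJ 2 g x L) (fun L => 6 * JJ 1 g x L) where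
  d0 := by
    intro L _
    have h := hasDerivAt_JJ hg.continuousOn hx (p := 2) (by norm_num) L
    refine h.congr_deriv ?_
    norm_num
  d1 := by
    intro L _
    have h := (hasDerivAt_JJ hg.continuousOn hx (p := 1) le_rfl L).const_mul 3
    refine h.congr_deriv ?_
    norm_num
    ring
  ode := by
    intro L _
    exact ode_rel hg hlap hx L
  l0 := JJ_tendsto hg.continuousOn hx (by norm_num)
  l1 := by
    have h := (JJ_tendsto hg.continuousOn hx (p := 2) (by norm_num)).const_mul 3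
    rwa [mul_zero] at h

theorem JJ_lowerL {g : ℂ × ℂ → ℝ} {lam Λ : ℝ} (hl : 0 ≤ lam) (hΛ : lam ≤ Λ)
    (hg : ContDiffOn ℝ 2 g U)
    (hlap : ∀ z ∈ U, lapR g z = -(lam * g z)) {x : ℂ × ℂ} (hx : x ∈ U) (hgx : 0 < g x)
    {L : ℝ} (hL : 1 < L) (hL2 : L ≤ 1 + 3 / (8 * (|Λ| + 1))) :
    c3 * g x / 2 * (L - 1) ^ 5 ≤ JJ 3 g x L := by
  apply odeL_lower (JJ_odeL hg hlap hx) hl hΛ (mul_pos c3_pos hgx) _ hL hL2
  rw [Metric.tendsto_nhds]
  intro ε hε
  have h1 := JJ_asym hg.continuousOn hx (ε := ε / (2 * c3)) (by have := c3_pos; positivity)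
  have h2 : ∀ᶠ L in 𝓝[>] (1 : ℝ), 1 < L := eventually_mem_nhdsWithin
  filter_upwards [h1, h2] with L h1 h2
  rw [JJ_one hx h2] at h1
  have hc := c3_pos
  have hp : 0 < (L - 1) ^ 5 := pow_pos (by linarith) 5
  rw [Real.dist_eq]
  have e1 : JJ 3 g x L / (L - 1) ^ 5 - c3 * g x =
      (JJ 3 g x L - g x * (c3 * (L - 1) ^ 5)) / (L - 1) ^ 5 := by
    rw [sub_div, ← mul_assoc, mul_div_assoc (g x * c3), div_self hp.ne', mul_one, mul_comm c3]
  rw [e1, abs_div, abs_of_pos hp, div_lt_iff₀ hp]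
  refine lt_of_le_of_lt h1 ?_
  have e2 : ε / (2 * c3) * (c3 * (L - 1) ^ 5) = ε / 2 * (L - 1) ^ 5 := by
    field_simp
  rw [e2]
  exact mul_lt_mul_of_pos_right (by linarith) hp

/-- **Small radius kernel, complex eigenfunctions with `0 ≤ lam ≤ Λ`.** -/
theorem lower_small {f : ℂ × ℂ → ℂ} {lam Λ : ℝ} (hf : ContDiffOn ℝ 2 f U)
    (heig : ∀ z ∈ U, laplacian f z = -((lam : ℂ) * f z)) (h0 : 0 ≤ lam) (hΛ : lam ≤ Λ)
    {x : ℂ × ℂ} (hx : x ∈ U) {L : ℝ} (hL : 1 < L) (hL2 : L ≤ 1 + 3 / (8 * (|Λ| + 1))) :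
    c3 / 2 * (L - 1) ^ 5 * ‖f x‖ ≤ ‖∫ w : X, (ker 3 L x w.1 : ℂ) * f w.1 ∂mu‖ := by
  by_cases hfx : f x = 0
  · rw [hfx, norm_zero, mul_zero]
    exact norm_nonneg _
  have hn : 0 < ‖f x‖ := norm_pos_iff.2 hfx
  have hc := c3_pos
  have hg : ContDiffOn ℝ 2 (fun z => d3_l (f x) (f z)) U :=
    (d3_l (f x)).contDiff.comp_contDiffOn hf
  have hlap : ∀ z ∈ U, lapR (fun z => d3_l (f x) (f z)) z = -(lam * d3_l (f x) (f z)) := by
    intro z hz
    have e1 := lapR_comp (d3_l (f x)) hf hz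
    rw [heig z hz] at e1
    rw [e1, map_neg, d3_l_smul]
  have h6 := JJ_lowerL h0 hΛ hg hlap hx (by simp only [d3_l_self]; positivity) hL hL2
  have h7 : JJ 3 (fun z => d3_l (f x) (f z)) x L =
      d3_l (f x) (∫ w : X, (ker 3 L x w.1 : ℂ) * f w.1 ∂mu) := by
    rw [← ContinuousLinearMap.integral_comp_comm _ (d3_integrable hf.continuousOn hx L), JJ]
    apply integral_congr_ae
    filter_upwards with w
    rw [d3_l_smul]
  rw [h7] at h6
  simp only [d3_l_self] at h6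
  have h8 := h6.trans (d3_l_le _ _)
  refine le_of_mul_le_mul_left ?_ hn
  refine le_trans (le_of_eq ?_) h8
  ring

end

end Pool.Agent.Lib.H43T
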