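import Pool.Agent.Lib.H56D.G0
import Pool.Agent.Lib.H56.Gen.Level

/-!
# Cusp truncation: the part of the mass of a cusp form of level `n` above height `A n²` is small

For a cuspidal square integrable eigenfunction `f` of the principal congruence subgroup of level `n`
the part of the mass above height `A` (in all cusps) is at most `λ n² / (c A)` times the mass.
-/

namespace Pool.Agent.Lib.H43T

open Matrix hiding J
open MeasureTheory Topology Filter
open Pool.Agent.Lib.H56.Picard hiding O Gam mem_Gam star_mem_O T_mem sg_mem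
open Pool.Agent.Lib.H56.Gen
open Pool.Agent.Lib.H56D
open scoped ENNReal

noncomputable section

variable {q : QD}

/-- Vanishing of the constant terms at all cusps, for the translation lattice of `K`. -/
def Cuspi (K : Cusp q) (f : ℂ × ℂ → ℂ) : Prop :=
  ∀ γ : Gam q, ∀ u : ℝ, 0 < u → ∫ s in (0:ℝ)..1, ∫ t in (0:ℝ)..1, ∫ v in (0:ℝ)..K.P,
      f (act (mat γ.1) (PsiE K.e1 K.e2 s t v u)) = 0

lemma above_eq_one {A u : ℝ} (h : A < u) : above A u = 1 := by
  unfold above
  exact Set.indicator_of_mem (show u ∈ Set.Ioi A from h) _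

lemma above_eq_zero {A u : ℝ} (h : u ≤ A) : above A u = 0 := by
  unfold above
  exact Set.indicator_of_notMem (show u ∉ Set.Ioi A from fun hc => absurd hc (not_lt.2 h)) _

/-- At most one cusp is higher than `2`. -/
lemma cuspSum_above_le {A : ℝ} (hA : 2 ≤ A) (z : X) : cuspSum (OO q) star_mem (above A) z ≤ 1 := by
  unfold cuspSum
  by_cases hex : ∃ c : Gam q ⧸ stab (OO q) star_mem,
      A < height (act (mat (c.out : Gam q)⁻¹.1) z.1)
  · obtain ⟨c, hc⟩ := hex
    rw [tsum_eq_single c]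
    · rw [above_eq_one hc]
    · intro d hd
      apply above_eq_zero
      by_contra hcon
      push Not at hcon
      set γ : Gam q := (c.out : Gam q)⁻¹ * (d.out : Gam q) with hγ
      have h0 : mat γ.1 2 0 ≠ 0 := by
        intro h0
        have h1 : γ ∈ stab (OO q) star_mem := h0
        have h2 : c = d := by
          rw [← QuotientGroup.out_eq' c, ← QuotientGroup.out_eq' d, QuotientGroup.eq]
          exact h1
        exact hd h2.symm
      have h1 : 1 ≤ ‖mat γ.1 2 0‖ := one_le_norm _ (γ.2 2 0) h0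
      have hz : act (mat (d.out : Gam q)⁻¹.1) z.1 ∈ U := act_mem_U _ z.2
      have h2 := height_mul_le γ.1 hz h1
      have h3 : act (mat γ.1) (act (mat (d.out : Gam q)⁻¹.1) z.1) =
          act (mat (c.out : Gam q)⁻¹.1) z.1 := by
        rw [act_act _ _ z.2]
        congr 2
        rw [hγ]
        have : ((c.out : Gam q)⁻¹ * (d.out : Gam q)) * (d.out : Gam q)⁻¹ = (c.out : Gam q)⁻¹ := by
          group
        exact congrArg Subtype.val this
      rw [h3] at h2
      nlinarith
  · push Not at hex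
    have h0 : ∀ c : Gam q ⧸ stab (OO q) star_mem,
        above A (height (act (mat (c.out : Gam q)⁻¹.1) z.1)) = 0 := fun c =>
      above_eq_zero (hex c)
    simp only [h0, tsum_zero]
    exact zero_le

/-- The height itself is one of the heights. -/
lemma le_cuspSum (v : ℝ → ℝ≥0∞) (z : X) : v (height z.1) ≤ cuspSum (OO q) star_mem v z := by
  unfold cuspSum
  set c : Gam q ⧸ stab (OO q) star_mem := ((1 : Gam q) : Gam q ⧸ stab (OO q) star_mem) with hc
  have h1 : (c.out : Gam q)⁻¹ ∈ stab (OO q) star_mem := by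
    have h8 : ((1 : Gam q) : Gam q ⧸ stab (OO q) star_mem) =
        ((c.out : Gam q) : Gam q ⧸ stab (OO q) star_mem) := by
      rw [QuotientGroup.out_eq']
    rw [QuotientGroup.eq] at h8
    simpa using (stab (OO q) star_mem).inv_mem h8
  have h2 : height (act (mat (c.out : Gam q)⁻¹.1) z.1) = height z.1 :=
    height_stab one_le_norm (⟨(c.out : Gam q)⁻¹, h1⟩ : stab (OO q) star_mem) z
  calc v (height z.1) = v (height (act (mat (c.out : Gam q)⁻¹.1) z.1)) := by rw [h2]
    _ ≤ _ := ENNReal.le_tsum (f := fun c : Gam q ⧸ stab (OO q) star_mem =>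
        v (height (act (mat (c.out : Gam q)⁻¹.1) z.1))) c

/-- **Truncation**, general form. -/
theorem trunc_gen (D : CD q) (K : Cusp q) {f : ℂ × ℂ → ℂ} {l : ℝ}
    (hf : Good D (GamN q K.p) f l) (hcus : Cuspi K f) {A m k0 : ℝ} (hA : 2 ≤ A) (hm : 0 ≤ m)
    (hm1 : m ≤ A ^ 2 * (2 * Real.pi / K.P) ^ 2) (hk0 : 0 ≤ k0)
    (hk : ∀ i j : ℤ, (i ≠ 0 ∨ j ≠ 0) → k0 ≤ K.A1 * i ^ 2 + K.A2 * i * j + K.A3 * j ^ 2)
    (hm2 : m ≤ A * (4 * Real.pi ^ 2 * k0)) :
    ENNReal.ofReal m * ∫⁻ z, om D z * (above A (height z.1) * PhiS (GamN q K.p) f z) ∂mu ≤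
      ∫⁻ z, om D z * EnS (GamN q K.p) f z ∂mu := by
  have hA0 : 0 < A := by linarith
  have hGfin := GamN_finiteIndex (q := q) K.hp K.hp0
  have hfinq : Finite (Gam q ⧸ GamN q K.p) := Subgroup.finite_quotient_of_finiteIndex
  have hFt := Fintype.ofFinite (Gam q ⧸ GamN q K.p)
  have hfs := hf.smooth
  have hinv := hf.inv
  have hB : ∀ z ∈ U, ∃! b : K.B, act (mat b.1.1) z ∈ K.Box := fun z hz => K.exists_unique_B hz
  set y0 : X := ⟨((-(1 / 2) : ℂ), (0 : ℂ)), by
    show 0 < height _
    simp [height]⟩ with hy0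
  set R := rep (OO q) star_mem K.Box y0 with hR
  have hR0 : R ≠ 0 := by
    have := one_le_rep (B_le_stab K) hB y0
    intro h0
    rw [← hR, h0] at this
    exact absurd this (by simp)
  have hRt : R ≠ ⊤ := rep_ne_top Pool.Agent.Lib.H56.Gen.finite_ball one_le_norm
    (fun r R hr => Box_compact K r R hr) y0
  have mω := measurable_om D
  have mP : Measurable (PhiS (GamN q K.p) f) := measurable_PhiS hfs
  have mE : Measurable (EnS (GamN q K.p) f) := measurable_EnS hfs
  have hPinv : ∀ (γ : Gam q) (z : X), PhiS (GamN q K.p) f (γ • z) = PhiS (GamN q K.p) f z :=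
    PhiS_smul hinv
  have hEinv : ∀ (γ : Gam q) (z : X), EnS (GamN q K.p) f (γ • z) = EnS (GamN q K.p) f z :=
    EnS_smul hfs hinv
  have mA := measurable_above A
  have uP := box_unfold Pool.Agent.Lib.H56.Gen.finite_ball one_le_norm (measurableSet_Box K)
    (B_le_stab K) hB mω (sum_om D) mA mP hPinv y0
  have uE := box_unfold Pool.Agent.Lib.H56.Gen.finite_ball one_le_norm (measurableSet_Box K)
    (B_le_stab K) hB mω (sum_om D) mA mE hEinv y0
  have hLP : ∫⁻ z, om D z * PhiS (GamN q K.p) f z ∂mu ≠ ⊤ := by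
    rw [← lintegral_PhiS D _ hfs]
    exact hf.L2
  have hle : ∀ (Ψ : X → ℝ≥0∞) (z : X), cuspSum (OO q) star_mem (above A) z * Ψ z ≤ Ψ z := by
    intro Ψ z
    calc cuspSum (OO q) star_mem (above A) z * Ψ z ≤ 1 * Ψ z := by
          gcongr
          exact cuspSum_above_le hA z
      _ = Ψ z := one_mul _
  -- finiteness over the big box
  have hfinP : ∫⁻ z in {z : X | z.1 ∈ K.Box}, above A (height z.1) *
      PhiS (GamN q K.p) f z ∂mu ≠ ⊤ := by
    rw [uP]
    refine ENNReal.mul_ne_top hRt (ne_top_of_le_ne_top hLP (lintegral_mono fun z => ?_))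
    gcongr
    exact hle _ z
  have mN : ∀ x : Gam q ⧸ GamN q K.p, Measurable fun z : X =>
      Complex.normSq (conj (GamN q K.p) f x z.1) := fun x =>
    (continuous_restrict (φ := fun z => Complex.normSq (conj (GamN q K.p) f x z))
      (Complex.continuous_normSq.comp_continuousOn
        (contDiffOn_conj2 hfs x).continuousOn)).measurable
  have hfinC : ∀ x : Gam q ⧸ GamN q K.p, BW A K.P (fun s t v u =>
      Complex.normSq (conj (GamN q K.p) f x (PsiE K.e1 K.e2 s t v u))) < ∞ := by
    intro x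
    have e2 := lintegral_Box_weight K hA0 (wE := above A) (w := fun _ => 1) mA
      (fun u _ => zero_le_one)
      (fun u hu => by rw [above_eq_one hu, ENNReal.ofReal_one])
      (fun u hu => above_eq_zero hu)
      (fun z => Complex.normSq (conj (GamN q K.p) f x z)) (mN x)
    have h3 : ∫⁻ z in {z : X | z.1 ∈ K.Box}, above A (height z.1) *
        ENNReal.ofReal (Complex.normSq (conj (GamN q K.p) f x z.1)) ∂mu ≠ ⊤ := by
      refine ne_top_of_le_ne_top hfinP (lintegral_mono fun z => ?_)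
      gcongr
      exact ENNReal.le_tsum (f := fun x : Gam q ⧸ GamN q K.p =>
        ENNReal.ofReal (Complex.normSq (conj (GamN q K.p) f x z.1))) x
    rw [e2] at h3
    simp only [one_mul] at h3
    by_contra hcon
    have h4 : BW A K.P (fun s t v u =>
      Complex.normSq (conj (GamN q K.p) f x (PsiE K.e1 K.e2 s t v u))) = ⊤ := by
      by_contra h5
      exact hcon (lt_top_iff_ne_top.2 h5)
    rw [h4, ENNReal.mul_top] at h3
    · exact h3 rfl
    · have := K.cv_pos
      rw [ENNReal.ofReal_ne_zero_iff]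
      positivity
  have hcn : ∀ (x : Gam q ⧸ GamN q K.p) (R : ℂ →L[ℝ] ℝ),
      Measurable fun z : X => R (conj (GamN q K.p) f x z.1) ^ 2 := by
    intro x R
    have h1 := (cuspFun_re K hfs hinv x R).smooth.continuousOn
    exact ((continuous_restrict h1).pow 2).measurable
  have hce : ∀ (x : Gam q ⧸ GamN q K.p) (R : ℂ →L[ℝ] ℝ),
      Measurable fun z : X => energy (fun z => R (conj (GamN q K.p) f x z)) z.1 := by
    intro x R
    have h1 := (cuspFun_re K hfs hinv x R).smooth.of_le (m := 1) (by norm_num)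
    exact (continuous_restrict (φ := fun z => normL z
      (fderiv ℝ (fun z => R (conj (GamN q K.p) f x z)) z)) (continuousOn_normL h1)).measurable
  set vE : ℝ → ℝ≥0∞ := fun u => ENNReal.ofReal m * above A u with hvE
  have mvE : Measurable vE := measurable_const.mul mA
  -- the inequality for real and imaginary parts
  have hpart : ∀ (x : Gam q ⧸ GamN q K.p) (R : ℂ →L[ℝ] ℝ), (∀ c : ℂ, R c ^ 2 ≤ Complex.normSq c) →
      ∫⁻ z in {z : X | z.1 ∈ K.Box}, vE (height z.1) *
        ENNReal.ofReal (R (conj (GamN q K.p) f x z.1) ^ 2) ∂mu ≤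
      ∫⁻ z in {z : X | z.1 ∈ K.Box}, above A (height z.1) *
        ENNReal.ofReal (energy (fun z => R (conj (GamN q K.p) f x z)) z.1) ∂mu := by
    intro x R hR
    have hgC := cuspFun_re K hfs hinv x R
    rw [lintegral_Box_weight K hA0 (w := fun _ => m) mvE (fun _ _ => hm)
        (fun u hu => by
          simp only [hvE]
          rw [above_eq_one hu, mul_one])
        (fun u hu => by
          simp only [hvE]
          rw [above_eq_zero hu, mul_zero])
        (fun z => R (conj (GamN q K.p) f x z) ^ 2) (hcn x R),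
      lintegral_Box_weight K hA0 (w := fun _ => 1) mA (fun _ _ => zero_le_one)
        (fun u hu => by rw [above_eq_one hu, ENNReal.ofReal_one])
        (fun u hu => above_eq_zero hu)
        (fun z => energy (fun z => R (conj (GamN q K.p) f x z)) z) (hce x R)]
    refine mul_le_mul' le_rfl ?_
    refine cusp_real K (h := A) (L := 0) (k0 := k0) (w := fun _ => 1) (V := fun _ => m)
      (B1 := fun _ => 0) (B2 := fun _ => 0) (B1' := fun _ => 0) (B2' := fun _ => 0) (M := 0)
      hA0 hk0 hk le_rfl zero_le_one continuousOn_const (fun _ _ => one_pos) measurable_const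
      (fun _ _ => hm) (fun u _ => hasDerivAt_const _ _) (fun u _ => hasDerivAt_const _ _)
      continuousOn_const continuousOn_const continuousOn_const continuousOn_const le_rfl le_rfl
      (fun u _ => by simp) (fun u _ => by simp) (fun u hu => ?_) (fun u hu => ?_) hgC
      (fun u hu => ?_) ?_
    · have hu0 : 0 < u := hA0.trans hu
      have h1 : m ≤ u ^ 2 * (2 * Real.pi / K.P) ^ 2 := by
        refine hm1.trans ?_
        have : A ^ 2 ≤ u ^ 2 := by gcongr
        exact mul_le_mul_of_nonneg_right this (sq_nonneg _)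
      have h2 : 0 ≤ u⁻¹ ^ 3 := by positivity
      have h3 : u⁻¹ ^ 3 * m ≤ u⁻¹ ^ 3 * (u ^ 2 * (2 * Real.pi / K.P) ^ 2) :=
        mul_le_mul_of_nonneg_left h1 h2
      simpa using h3
    · have hu0 : 0 < u := hA0.trans hu
      have h1 : m ≤ u * (4 * Real.pi ^ 2 * k0) := by
        refine hm2.trans ?_
        have h4 : 0 ≤ 4 * Real.pi ^ 2 * k0 := by positivity
        exact mul_le_mul_of_nonneg_right hu.le h4
      have h2 : 0 ≤ u⁻¹ ^ 3 := by positivity
      have h3 : u⁻¹ ^ 3 * m ≤ u⁻¹ ^ 3 * (u * (4 * Real.pi ^ 2 * k0)) :=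
        mul_le_mul_of_nonneg_left h1 h2
      simpa using h3
    · have hu0 : 0 < u := hA0.trans hu
      have h1 := triple_comm R (G := fun s t v =>
        conj (GamN q K.p) f x (PsiE K.e1 K.e2 s t v u))
        (cont_fixedE K.e1 K.e2 (contDiffOn_conj2 hfs x).continuousOn hu0) K.P
      rw [h1]
      have h2 := hcus (x.out : Gam q)⁻¹ u hu0
      have h3 : ∫ s in (0:ℝ)..1, ∫ t in (0:ℝ)..1, ∫ v in (0:ℝ)..K.P,
          conj (GamN q K.p) f x (PsiE K.e1 K.e2 s t v u) = 0 := h2
      rw [h3, map_zero]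
    · refine lt_of_le_of_lt ?_ (hfinC x)
      unfold BW
      refine setLIntegral_mono' measurableSet_Ioi fun u hu => ?_
      have hu0 : 0 < u := hA0.trans hu
      refine lintegral_mono fun s => lintegral_mono fun t => lintegral_mono fun v => ?_
      apply ENNReal.ofReal_le_ofReal
      exact mul_le_mul_of_nonneg_left (hR _) (by positivity)
  have hone : ∀ x : Gam q ⧸ GamN q K.p,
      ∫⁻ z in {z : X | z.1 ∈ K.Box}, vE (height z.1) *
        ENNReal.ofReal (Complex.normSq (conj (GamN q K.p) f x z.1)) ∂mu ≤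
      ∫⁻ z in {z : X | z.1 ∈ K.Box}, above A (height z.1) *
        ENNReal.ofReal (energy (fun z => (conj (GamN q K.p) f x z).re) z.1 +
          energy (fun z => (conj (GamN q K.p) f x z).im) z.1) ∂mu := by
    intro x
    have h1 := hpart x Complex.reCLM (fun c => by
      rw [Complex.normSq_apply, Complex.reCLM_apply]
      nlinarith [sq_nonneg c.im])
    have h2 := hpart x Complex.imCLM (fun c => by
      rw [Complex.normSq_apply, Complex.imCLM_apply]
      nlinarith [sq_nonneg c.re])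
    have mh : Measurable fun z : X => height z.1 := measurable_height
    have a1 : ∫⁻ z in {z : X | z.1 ∈ K.Box}, vE (height z.1) *
        ENNReal.ofReal (Complex.normSq (conj (GamN q K.p) f x z.1)) ∂mu =
        ∫⁻ z in {z : X | z.1 ∈ K.Box}, vE (height z.1) *
          ENNReal.ofReal (Complex.reCLM (conj (GamN q K.p) f x z.1) ^ 2) ∂mu +
        ∫⁻ z in {z : X | z.1 ∈ K.Box}, vE (height z.1) *
          ENNReal.ofReal (Complex.imCLM (conj (GamN q K.p) f x z.1) ^ 2) ∂mu := by
      have m1 : Measurable fun z : X => vE (height z.1) *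
          ENNReal.ofReal (Complex.reCLM (conj (GamN q K.p) f x z.1) ^ 2) :=
        (mvE.comp mh).mul (ENNReal.measurable_ofReal.comp (hcn x Complex.reCLM))
      rw [← lintegral_add_left m1]
      refine lintegral_congr fun z => ?_
      rw [← mul_add, ← ENNReal.ofReal_add (by positivity) (by positivity), Complex.normSq_apply,
        Complex.reCLM_apply, Complex.imCLM_apply]
      congr 2
      ring
    have a2 : ∫⁻ z in {z : X | z.1 ∈ K.Box}, above A (height z.1) *
        ENNReal.ofReal (energy (fun z => (conj (GamN q K.p) f x z).re) z.1 +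
          energy (fun z => (conj (GamN q K.p) f x z).im) z.1) ∂mu =
        ∫⁻ z in {z : X | z.1 ∈ K.Box}, above A (height z.1) *
          ENNReal.ofReal (energy (fun z => Complex.reCLM (conj (GamN q K.p) f x z)) z.1) ∂mu +
        ∫⁻ z in {z : X | z.1 ∈ K.Box}, above A (height z.1) *
          ENNReal.ofReal (energy (fun z => Complex.imCLM (conj (GamN q K.p) f x z)) z.1) ∂mu := by
      have m1 : Measurable fun z : X => above A (height z.1) *
          ENNReal.ofReal (energy (fun z => Complex.reCLM (conj (GamN q K.p) f x z)) z.1) :=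
        (mA.comp mh).mul (ENNReal.measurable_ofReal.comp (hce x Complex.reCLM))
      rw [← lintegral_add_left m1]
      refine lintegral_congr fun z => ?_
      have n1 : 0 ≤ energy (fun z => (conj (GamN q K.p) f x z).re) z.1 := normL_nonneg z.2.le _
      have n2 : 0 ≤ energy (fun z => (conj (GamN q K.p) f x z).im) z.1 := normL_nonneg z.2.le _
      rw [ENNReal.ofReal_add n1 n2, mul_add]
      rfl
    rw [a1, a2]
    exact add_le_add h1 h2
  -- sum over the cosets
  have l3 : ∫⁻ z in {z : X | z.1 ∈ K.Box}, vE (height z.1) * PhiS (GamN q K.p) f z ∂mu ≤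
      ∫⁻ z in {z : X | z.1 ∈ K.Box}, above A (height z.1) * EnS (GamN q K.p) f z ∂mu := by
    unfold PhiS EnS
    simp only [tsum_fintype, Finset.mul_sum]
    rw [lintegral_finsetSum, lintegral_finsetSum]
    · exact Finset.sum_le_sum fun x _ => hone x
    · intro x _
      exact (mA.comp measurable_height).mul (measurable_energy hfs x)
    · intro x _
      exact (mvE.comp measurable_height).mul (ENNReal.measurable_ofReal.comp (mN x))
  have l1 : R * (ENNReal.ofReal m *
      ∫⁻ z, om D z * (above A (height z.1) * PhiS (GamN q K.p) f z) ∂mu) ≤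
      ∫⁻ z in {z : X | z.1 ∈ K.Box}, vE (height z.1) * PhiS (GamN q K.p) f z ∂mu := by
    have e1 : ∫⁻ z in {z : X | z.1 ∈ K.Box}, vE (height z.1) * PhiS (GamN q K.p) f z ∂mu =
        ENNReal.ofReal m *
        ∫⁻ z in {z : X | z.1 ∈ K.Box}, above A (height z.1) * PhiS (GamN q K.p) f z ∂mu := by
      have mm : Measurable fun z : X => above A (height z.1) * PhiS (GamN q K.p) f z :=
        (mA.comp measurable_height).mul mP
      rw [← lintegral_const_mul _ mm]
      refine lintegral_congr fun z => ?_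
      simp only [hvE]
      rw [mul_assoc]
    rw [e1, uP]
    calc R * (ENNReal.ofReal m *
        ∫⁻ z, om D z * (above A (height z.1) * PhiS (GamN q K.p) f z) ∂mu) =
        ENNReal.ofReal m * (R *
        ∫⁻ z, om D z * (above A (height z.1) * PhiS (GamN q K.p) f z) ∂mu) := by ring
      _ ≤ _ := by
        gcongr
        exact le_cuspSum (above A) _
  have l2 : ∫⁻ z in {z : X | z.1 ∈ K.Box}, above A (height z.1) * EnS (GamN q K.p) f z ∂mu ≤
      R * ∫⁻ z, om D z * EnS (GamN q K.p) f z ∂mu := by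
    rw [uE]
    gcongr
    exact hle _ _
  exact (ENNReal.mul_le_mul_iff_right hR0 hRt).1 (l1.trans (l3.trans l2))

/-! ### The principal congruence subgroups of level `n` -/

/-- Cusp data of level `n` from cusp data of level one. -/
def scale (K : Cusp q) (h1 : K.p = 1) (n : ℕ) (hn : n ≠ 0) : Cusp q where
  p := (n : ℂ)
  e1 := n * K.e1
  e2 := n * K.e2
  w1 := n ^ 2 * K.w1
  w2 := n ^ 2 * K.w2
  P := n * K.P
  hp := natCast_mem (OO q) n
  hp0 := Nat.cast_ne_zero.2 hn
  he1 := by
    obtain ⟨x, hx, e⟩ := K.he1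
    refine ⟨x, hx, ?_⟩
    rw [e, h1, one_mul]
  he2 := by
    obtain ⟨x, hx, e⟩ := K.he2
    refine ⟨x, hx, ?_⟩
    rw [e, h1, one_mul]
  hs1 := by
    obtain ⟨x, hx, e⟩ := K.hs1
    refine ⟨x, hx, ?_⟩
    rw [star_mul', e, h1, one_mul]
    congr 1
    simp
  hs2 := by
    obtain ⟨x, hx, e⟩ := K.hs2
    refine ⟨x, hx, ?_⟩
    rw [star_mul', e, h1, one_mul]
    congr 1
    simp
  hw1 := by
    obtain ⟨x, hx, e⟩ := K.hw1
    refine ⟨(n : ℂ) * x, (OO q).mul_mem (natCast_mem (OO q) n) hx, ?_⟩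
    rw [e, h1]
    ring
  hw2 := by
    obtain ⟨x, hx, e⟩ := K.hw2
    refine ⟨(n : ℂ) * x, (OO q).mul_mem (natCast_mem (OO q) n) hx, ?_⟩
    rw [e, h1]
    ring
  hw0 := by
    obtain ⟨x, hx, e⟩ := K.hw0
    refine ⟨x, hx, ?_⟩
    rw [h1, one_mul] at e
    rw [← e]
    apply Complex.ext
    · simp
    · simp
      ring
  r1 := by
    have h := K.r1
    have e1 : ((n : ℂ) ^ 2 * K.w1).re = (n : ℝ) ^ 2 * K.w1.re := by
      have : ((n : ℂ) ^ 2 * K.w1) = (((n : ℝ) ^ 2 : ℝ) : ℂ) * K.w1 := by push_cast; rfl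
      rw [this, Complex.re_ofReal_mul]
    have e2 : Complex.normSq ((n : ℂ) * K.e1) = (n : ℝ) ^ 2 * Complex.normSq K.e1 := by
      rw [Complex.normSq_mul, Complex.normSq_natCast]
      ring
    rw [e1, e2]
    linear_combination (n : ℝ) ^ 2 * h
  r2 := by
    have h := K.r2
    have e1 : ((n : ℂ) ^ 2 * K.w2).re = (n : ℝ) ^ 2 * K.w2.re := by
      have : ((n : ℂ) ^ 2 * K.w2) = (((n : ℝ) ^ 2 : ℝ) : ℂ) * K.w2 := by push_cast; rfl
      rw [this, Complex.re_ofReal_mul]
    have e2 : Complex.normSq ((n : ℂ) * K.e2) = (n : ℝ) ^ 2 * Complex.normSq K.e2 := by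
      rw [Complex.normSq_mul, Complex.normSq_natCast]
      ring
    rw [e1, e2]
    linear_combination (n : ℝ) ^ 2 * h
  hP := by
    have := K.hP
    have hn' : (0 : ℝ) < n := Nat.cast_pos.2 (Nat.pos_of_ne_zero hn)
    positivity
  cov := by
    have h := K.cov
    have hn' : (0 : ℝ) < n := Nat.cast_pos.2 (Nat.pos_of_ne_zero hn)
    have e : ((n : ℂ) * K.e1).re * ((n : ℂ) * K.e2).im - ((n : ℂ) * K.e1).im * ((n : ℂ) * K.e2).re =
        (n : ℝ) ^ 2 * (K.e1.re * K.e2.im - K.e1.im * K.e2.re) := by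
      simp
      ring
    rw [e]
    positivity
  cen := by
    intro x hx h
    have hn' : (n : ℝ) ≠ 0 := Nat.cast_ne_zero.2 hn
    have h2 : x.re = 0 := by
      have : ((n : ℂ) * x).re = n * x.re := by simp
      rw [this] at h
      exact (mul_eq_zero.1 h).resolve_left hn'
    obtain ⟨k, hk⟩ := K.cen x hx (by rw [h1, one_mul]; exact h2)
    rw [h1, one_mul] at hk
    refine ⟨k, ?_⟩
    have : ((n : ℂ) * x).im = n * x.im := by simp
    rw [this, hk]
    ring

lemma scale_cv (K : Cusp q) (h1 : K.p = 1) (n : ℕ) (hn : n ≠ 0) :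
    (scale K h1 n hn).cv = (n : ℝ) ^ 2 * K.cv := by
  simp only [Cusp.cv, scale]
  simp
  ring

lemma scale_A (K : Cusp q) (h1 : K.p = 1) (n : ℕ) (hn : n ≠ 0) :
    (scale K h1 n hn).A1 = K.A1 / n ^ 2 ∧ (scale K h1 n hn).A2 = K.A2 / n ^ 2 ∧
      (scale K h1 n hn).A3 = K.A3 / n ^ 2 := by
  have hn' : (n : ℝ) ≠ 0 := Nat.cast_ne_zero.2 hn
  have hc := K.cv_pos.ne'
  have e0 := scale_cv K h1 n hn
  refine ⟨?_, ?_, ?_⟩
  · simp only [Cusp.A1, e0]
    have e2 : Complex.normSq (scale K h1 n hn).e2 = (n : ℝ) ^ 2 * Complex.normSq K.e2 := by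
      simp only [scale]
      rw [Complex.normSq_mul, Complex.normSq_natCast]
      ring
    rw [e2]
    field_simp
  · simp only [Cusp.A2, e0]
    have e2 : (scale K h1 n hn).e1.re * (scale K h1 n hn).e2.re +
        (scale K h1 n hn).e1.im * (scale K h1 n hn).e2.im =
        (n : ℝ) ^ 2 * (K.e1.re * K.e2.re + K.e1.im * K.e2.im) := by
      simp only [scale]
      simp
      ring
    rw [e2]
    field_simp
  · simp only [Cusp.A3, e0]
    have e2 : Complex.normSq (scale K h1 n hn).e1 = (n : ℝ) ^ 2 * Complex.normSq K.e1 := by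
      simp only [scale]
      rw [Complex.normSq_mul, Complex.normSq_natCast]
      ring
    rw [e2]
    field_simp

/-- The quadratic form of the cusp is bounded below on nonzero integer vectors. -/
lemma exists_k0 (K : Cusp q) : ∃ k0 : ℝ, 0 < k0 ∧ ∀ i j : ℤ, (i ≠ 0 ∨ j ≠ 0) →
    k0 ≤ K.A1 * i ^ 2 + K.A2 * i * j + K.A3 * j ^ 2 := by
  have hc := K.cv_pos
  have hdet : 4 * K.A1 * K.A3 - K.A2 ^ 2 = 1 / (4 * K.cv ^ 2) := by
    have h4 : K.cv ^ 2 = (K.e1.re * K.e2.im - K.e1.im * K.e2.re) ^ 2 := rfl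
    have h5 : K.cv ^ 4 = (K.e1.re * K.e2.im - K.e1.im * K.e2.re) ^ 4 := rfl
    simp only [Cusp.A1, Cusp.A2, Cusp.A3, Complex.normSq_apply]
    field_simp
    rw [h4]
    ring
  have hd0 : 0 < 1 / (4 * K.cv ^ 2) := by positivity
  set d := 1 / (4 * K.cv ^ 2) with hd
  have hn1 : 0 < Complex.normSq K.e1 := by
    rw [Complex.normSq_pos]
    intro he
    have := K.cov
    rw [he] at this
    simp at this
  have hn2 : 0 < Complex.normSq K.e2 := by
    rw [Complex.normSq_pos]
    intro he
    have := K.cov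
    rw [he] at this
    simp at this
  have hA1 : 0 < K.A1 := by
    unfold Cusp.A1
    positivity
  have hA3 : 0 < K.A3 := by
    unfold Cusp.A3
    positivity
  refine ⟨min (d / (4 * K.A3)) (d / (4 * K.A1)), lt_min (by positivity) (by positivity), ?_⟩
  have one_le : ∀ k : ℤ, k ≠ 0 → (1 : ℝ) ≤ (k : ℝ) ^ 2 := by
    intro k hk
    have h1 : (1 : ℤ) ≤ k ^ 2 := by
      have := sq_pos_of_ne_zero hk
      linarith
    exact_mod_cast h1
  intro i j hij
  rcases hij with hi | hj
  · refine (min_le_left _ _).trans ?_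
    rw [div_le_iff₀ (by positivity)]
    have h1 := one_le i hi
    nlinarith [sq_nonneg (2 * K.A3 * j + K.A2 * i)]
  · refine (min_le_right _ _).trans ?_
    rw [div_le_iff₀ (by positivity)]
    have h1 := one_le j hj
    nlinarith [sq_nonneg (2 * K.A1 * i + K.A2 * j)]

/-- **Truncation at level `n`.** -/
theorem trunc (D : CD q) : ∃ c : ℝ, 0 < c ∧ ∀ (n : ℕ) (hn : n ≠ 0) (f : ℂ × ℂ → ℂ) (l : ℝ),
    Good D (GamN q (n : ℂ)) f l → Cuspi (scale D.K D.one n hn) f → ∀ A : ℝ, 2 ≤ A →
    ENNReal.ofReal (c * A / n ^ 2) *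
      ∫⁻ z, om D z * (above A (height z.1) * PhiS (GamN q (n : ℂ)) f z) ∂mu ≤
      ENNReal.ofReal l * ∫⁻ z, om D z * PhiS (GamN q (n : ℂ)) f z ∂mu := by
  obtain ⟨k0, hk0, hk⟩ := exists_k0 D.K
  have hP := D.K.hP
  have hpi := Real.pi_pos
  refine ⟨min ((2 * Real.pi / D.K.P) ^ 2) (4 * Real.pi ^ 2 * k0),
    lt_min (by positivity) (by positivity), ?_⟩
  intro n hn f l hf hcus A hA
  set c := min ((2 * Real.pi / D.K.P) ^ 2) (4 * Real.pi ^ 2 * k0) with hc
  have hc0 : 0 < c := lt_min (by positivity) (by positivity)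
  have hn' : (0 : ℝ) < n := Nat.cast_pos.2 (Nat.pos_of_ne_zero hn)
  have hA0 : 0 < A := by linarith
  have hGfin := GamN_finiteIndex (q := q) (p := (n : ℂ)) (natCast_mem (OO q) n)
    (Nat.cast_ne_zero.2 hn)
  by_cases hne : ∃ z ∈ U, f z ≠ 0
  · have hE := (energy_level D hf.smooth hf.inv hf.eig hf.L2 hne).2
    rw [Complex.ofReal_re] at hE
    refine le_trans ?_ hE
    obtain ⟨a1, a2, a3⟩ := scale_A D.K D.one n hn
    refine trunc_gen D (scale D.K D.one n hn) (f := f) (l := l) hf hcus hA (by positivity) ?_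
      (k0 := k0 / n ^ 2) (by positivity) ?_ ?_
    · have e : (scale D.K D.one n hn).P = n * D.K.P := rfl
      rw [e]
      have h1 : c ≤ (2 * Real.pi / D.K.P) ^ 2 := min_le_left _ _
      have h2 : A ^ 2 * (2 * Real.pi / (n * D.K.P)) ^ 2 =
          A * (A * (2 * Real.pi / D.K.P) ^ 2) / n ^ 2 := by
        field_simp
      rw [h2]
      have h3 : c * A ≤ A * (A * (2 * Real.pi / D.K.P) ^ 2) := by
        have h4 : c ≤ A * (2 * Real.pi / D.K.P) ^ 2 := by nlinarith
        nlinarith
      exact div_le_div_of_nonneg_right h3 (by positivity)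
    · intro i j hij
      rw [a1, a2, a3]
      have h1 := hk i j hij
      have h2 : D.K.A1 / n ^ 2 * i ^ 2 + D.K.A2 / n ^ 2 * i * j + D.K.A3 / n ^ 2 * j ^ 2 =
          (D.K.A1 * i ^ 2 + D.K.A2 * i * j + D.K.A3 * j ^ 2) / n ^ 2 := by
        field_simp
      rw [h2]
      exact div_le_div_of_nonneg_right h1 (by positivity)
    · have h1 : c ≤ 4 * Real.pi ^ 2 * k0 := min_le_right _ _
      have h2 : A * (4 * Real.pi ^ 2 * (k0 / n ^ 2)) = A * (4 * Real.pi ^ 2 * k0) / n ^ 2 := by
        field_simp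
      rw [h2]
      have h3 : c * A ≤ A * (4 * Real.pi ^ 2 * k0) := by nlinarith
      exact div_le_div_of_nonneg_right h3 (by positivity)
  · push Not at hne
    have h0 : ∀ z : X, PhiS (GamN q (n : ℂ)) f z = 0 := by
      intro z
      unfold PhiS
      rw [ENNReal.tsum_eq_zero]
      intro x
      have h1 : conj (GamN q (n : ℂ)) f x z.1 = 0 := by
        unfold conj
        exact hne _ (act_mem_U _ z.2)
      rw [h1]
      simp
    simp only [h0, mul_zero, lintegral_zero, le_refl]

/-- At least half of the mass lies below height `A n²`. -/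
theorem mass_low (D : CD q) (Λ : ℝ) : ∃ A : ℝ, 2 ≤ A ∧ ∀ (n : ℕ) (hn : n ≠ 0)
    (f : ℂ × ℂ → ℂ) (l : ℝ), Good D (GamN q (n : ℂ)) f l → Cuspi (scale D.K D.one n hn) f →
    l ≤ Λ → ∫⁻ z, om D z * PhiS (GamN q (n : ℂ)) f z ∂mu ≤
      2 * ∫⁻ z in {z : X | height z.1 ≤ A * n ^ 2}, om D z * PhiS (GamN q (n : ℂ)) f z ∂mu := by
  obtain ⟨c, hc, h⟩ := trunc D
  refine ⟨max 2 (2 * Λ / c), le_max_left _ _, ?_⟩
  intro n hn f l hf hcus hl
  set A := max 2 (2 * Λ / c) with hA
  have hn' : (0 : ℝ) < n := Nat.cast_pos.2 (Nat.pos_of_ne_zero hn)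
  have hn1 : (1 : ℝ) ≤ n := by exact_mod_cast Nat.one_le_iff_ne_zero.2 hn
  have hn2 : (1 : ℝ) ≤ (n : ℝ) ^ 2 := by nlinarith
  have hA2 : 2 ≤ A := le_max_left _ _
  have hAn : 2 ≤ A * n ^ 2 := by nlinarith
  have h1 := h n hn f l hf hcus (A * n ^ 2) hAn
  have e1 : c * (A * n ^ 2) / n ^ 2 = c * A := by
    field_simp
  rw [e1] at h1
  have hGfin := GamN_finiteIndex (q := q) (p := (n : ℂ)) (natCast_mem (OO q) n)
    (Nat.cast_ne_zero.2 hn)
  have hfinq : Finite (Gam q ⧸ GamN q (n : ℂ)) := Subgroup.finite_quotient_of_finiteIndex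
  have mP : Measurable (PhiS (GamN q (n : ℂ)) f) := measurable_PhiS hf.smooth
  have mω := measurable_om D
  set I := ∫⁻ z, om D z * PhiS (GamN q (n : ℂ)) f z ∂mu with hI
  have hIt : I ≠ ⊤ := by
    rw [hI, ← lintegral_PhiS D _ hf.smooth]
    exact hf.L2
  set Hi := ∫⁻ z, om D z * (above (A * n ^ 2) (height z.1) * PhiS (GamN q (n : ℂ)) f z) ∂mu
    with hHi
  set Lo := ∫⁻ z in {z : X | height z.1 ≤ A * n ^ 2}, om D z * PhiS (GamN q (n : ℂ)) f z ∂mu
    with hLo
  have hS : MeasurableSet {z : X | height z.1 ≤ A * n ^ 2} :=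
    measurableSet_le measurable_height measurable_const
  have hsplit : I = Lo + Hi := by
    have mm : Measurable ({z : X | height z.1 ≤ A * n ^ 2}.indicator
        fun z => om D z * PhiS (GamN q (n : ℂ)) f z) := (mω.mul mP).indicator hS
    rw [hI, hLo, hHi, ← lintegral_indicator hS, ← lintegral_add_left mm]
    refine lintegral_congr fun z => ?_
    by_cases hz : height z.1 ≤ A * n ^ 2
    · rw [Set.indicator_of_mem (show z ∈ {z : X | height z.1 ≤ A * n ^ 2} from hz),
        above_eq_zero hz]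
      simp
    · rw [Set.indicator_of_notMem (show z ∉ {z : X | height z.1 ≤ A * n ^ 2} from hz),
        above_eq_one (not_le.1 hz)]
      simp
  have hcA : 2 * Λ ≤ c * A := by
    have h2 : 2 * Λ / c ≤ A := le_max_right _ _
    rw [div_le_iff₀ hc] at h2
    linarith
  have hcA0 : 0 < c * A := by nlinarith
  -- `2 Hi ≤ I`
  have h2 : ENNReal.ofReal (c * A) * (2 * Hi) ≤ ENNReal.ofReal (c * A) * I := by
    calc ENNReal.ofReal (c * A) * (2 * Hi) = 2 * (ENNReal.ofReal (c * A) * Hi) := by ring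
      _ ≤ 2 * (ENNReal.ofReal l * I) := by gcongr
      _ = ENNReal.ofReal (2 * l) * I := by
        rw [ENNReal.ofReal_mul (by norm_num), ← mul_assoc]
        simp
      _ ≤ ENNReal.ofReal (c * A) * I :=
        mul_le_mul' (ENNReal.ofReal_le_ofReal (by linarith)) le_rfl
  have h3 : 2 * Hi ≤ I := (ENNReal.mul_le_mul_iff_right (by
    rw [ENNReal.ofReal_ne_zero_iff]
    exact hcA0) ENNReal.ofReal_ne_top).1 h2
  have hHt : Hi ≠ ⊤ := by
    refine ne_top_of_le_ne_top hIt (le_trans ?_ h3)
    rw [two_mul]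
    exact le_self_add
  have h4 : Hi + Hi ≤ Lo + Hi := by
    rw [← hsplit, ← two_mul]
    exact h3
  have h5 : Hi ≤ Lo := (ENNReal.add_le_add_iff_right hHt).1 h4
  rw [hsplit, two_mul]
  gcongr

end

end Pool.Agent.Lib.H43T
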